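import Pool.Agent.T9h38.RM.PlaneF

set_option autoImplicit false
set_option maxHeartbeats 1000000
set_option linter.unusedSectionVars false
set_option linter.unusedVariables false

/-!
# The family theorem
-/

open Module Function TensorProduct Matrix

noncomputable section

namespace Pool.Agent.T9h38.RM

open Pool.Agent.Y102 Pool.Agent.W516.DR Pool.Agent.H204R3.GP Pool.Agent.W516.KC
open Pool.Agent.N192.GP

/-- The members of the family. -/
inductive Mem {g : ℕ} (A : AbVar g) (k r : ℕ) : Prop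
  | plane (K : Type) (F : Fintype K) (D : @PD g A K F k) (hr : r = 3)
  | spin (h : SpinMatK A k r) (hr : 6 ≤ r)

namespace Mem

variable {g k r : ℕ} {A : AbVar g} (h : Mem A k r)
include h

theorem fine : Fine A := by
  rcases h with ⟨K, F, D, hr⟩ | ⟨h, hr⟩
  · exact fine_plane D
  · exact fine_spin h

theorem ok : Ok r := by
  rcases h with ⟨K, F, D, hr⟩ | ⟨h, hr⟩
  · exact Or.inl hr
  · exact Or.inr hr

theorem col (h0 : A.NA ≠ ⊥) : Nonempty (Col A.NA k r) := by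
  rcases h with ⟨K, F, D, hr⟩ | ⟨h, hr⟩
  · subst hr
    obtain ⟨D⟩ := D.out.1
    exact ⟨D.col⟩
  · have hn : Nontrivial (ℂ ⊗[ℚ] A.H1) := by
      by_contra hc
      have hs : Subsingleton (ℂ ⊗[ℚ] A.H1) := not_nontrivial_iff_subsingleton.1 hc
      apply h0
      rw [eq_bot_iff]
      intro X hX
      refine mem_of_bc ?_
      have h1 : X.baseChange ℂ = 0 := LinearMap.ext fun w => Subsingleton.elim _ _
      rw [h1]
      exact Submodule.zero_mem _
    exact col_of_spin h.spin hr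

end Mem

section Fam

variable {I J : Type} [Fintype I] [DecidableEq I] [Fintype J] [DecidableEq J]
  {g : I → ℕ} {A : ∀ i, AbVar (g i)} {d : J → ℕ} {V : ∀ j, DRS (d j)}

theorem colG {i : I} {k r : ℕ} (h : Mem (A i) k r) (h0 : gg (ηη A V) (Sum.inl i) ≠ ⊥) :
    Nonempty (Col (gg (ηη A V) (Sum.inl i)) k r) := by
  rw [gg_fine h.fine] at h0 ⊢
  exact h.col h0

theorem niG {i : I} {k r : ℕ} (h : Mem (A i) k r) (hn : NoIdeals (A i).NA) :
    NoIdeals (gg (ηη A V) (Sum.inl i)) := by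
  rw [gg_fine h.fine]
  exact hn

/-- Two members without homomorphisms are separated. -/
theorem sep_mem {i i' : I} {k k' r r' : ℕ} (h : Mem (A i) k r) (h' : Mem (A i') k' r')
    (hn : NoIdeals (A i).NA) (hn' : NoIdeals (A i').NA)
    (hom : ∀ f : (A i).H1 →ₗ[ℚ] (A i').H1, IsHomAb (A i) (A i') f → f = 0)
    (hom' : ∀ f : (A i').H1 →ₗ[ℚ] (A i).H1, IsHomAb (A i') (A i) f → f = 0) :
    Pool.Agent.N192.GP.Sep (ηη A V) (Sum.inl i) (Sum.inl i') := by
  have hs : NoIdeals (gg (ηη A V) (Sum.inl i)) := niG h hn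
  have ht : NoIdeals (gg (ηη A V) (Sum.inl i')) := niG h' hn'
  have hf := h.fine
  have hf' := h'.fine
  rcases link_or_sep hs ht (perf_fine hf) with hl | hl
  swap
  · exact hl
  have hbot : gg (ηη A V) (Sum.inl i) = ⊥ →
      Pool.Agent.N192.GP.Sep (ηη A V) (Sum.inl i) (Sum.inl i') := by
    intro h1
    unfold Pool.Agent.N192.GP.Sep
    rw [h1]
    exact bot_le
  by_cases hb : gg (ηη A V) (Sum.inl i) = ⊥
  · exact hbot hb
  have hb' : gg (ηη A V) (Sum.inl i') ≠ ⊥ := fun h1 => hb (hl.symm.bot h1)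
  obtain ⟨K, F, D, hr⟩ | ⟨hS, hr⟩ := h
  · obtain ⟨K', F', D', hr'⟩ | ⟨hS', hr'⟩ := h'
    · obtain ⟨D⟩ := D.out.1
      obtain ⟨D'⟩ := D'.out.1
      exact sep_planes D D' hf hf' hom hom'
    · obtain ⟨D⟩ := D.out.1
      exact absurd (not_linked D hf (colG (Mem.spin hS' hr') hb') (by omega) hl) hb'
  · obtain ⟨K', F', D', hr'⟩ | ⟨hS', hr'⟩ := h'
    · obtain ⟨D'⟩ := D'.out.1
      exact absurd (not_linked D' hf' (colG (Mem.spin hS hr) hb) (by omega) hl.symm) hb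
    · exact sep_spins hS hS' hr hr' hs ht hom

theorem fit_of {k r : I → ℕ} (h : ∀ i, Mem (A i) (k i) (r i)) (hn : ∀ i, NoIdeals (A i).NA)
    (hom : ∀ i i', i ≠ i' → ∀ f : (A i).H1 →ₗ[ℚ] (A i').H1, IsHomAb (A i) (A i') f → f = 0)
    (hV : ∀ i j, SepU ⟨2 * g i, DA A i⟩ ⟨d j, V j⟩) : Fit A V where
  fine i := (h i).fine
  sep i i' hne := sep_mem (h i) (h i') (hn i) (hn i') (hom i i' hne) (hom i' i (Ne.symm hne))
  sepV i j := sep_final (hV i j)

theorem sepU_pairA {i i' : I} (h : Pool.Agent.N192.GP.Sep (ηη A V) (Sum.inl i) (Sum.inl i')) :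
    SepU ⟨2 * g i, DA A i⟩ ⟨2 * g i', DA A i'⟩ := by
  have h0 := map_resU (ηη A V) (σσ A V) (ρρ A V) (ρρ_NN A V)
  intro X hX
  rw [ggU_eq A V i] at hX
  obtain ⟨ℓ, ⟨hℓ, h1⟩, h2⟩ := h hX
  rw [← h0] at hℓ
  obtain ⟨y, hy, rfl⟩ := hℓ
  exact ⟨y, ⟨hy, h1⟩, h2⟩

/-- **The number of exceptional members.** -/
theorem exc_dimB {r k : I → ℕ} (h : ∀ i, Mem (A i) (k i) (r i)) (hn : ∀ i, NoIdeals (A i).NA)
    (hom : ∀ i i', i ≠ i' → ∀ f : (A i).H1 →ₗ[ℚ] (A i').H1, IsHomAb (A i) (A i') f → f = 0)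
    {m : ℕ} (U : DRS m) (hU : ∀ i, ¬SepU ⟨2 * g i, DA A i⟩ ⟨m, U⟩) :
    ∑ i, k i * bet (r i) ≤ m := by
  let V : Unit → DRS m := fun _ => U
  have hnot : ∀ i, ¬Pool.Agent.N192.GP.Sep (ηη A V) (Sum.inl i) (Sum.inr ()) := fun i hs =>
    hU i (sepU_of_final (V := V) hs)
  have hne : ∀ i, gg (ηη A V) (Sum.inl i) ≠ ⊥ := by
    intro i hb
    apply hnot i
    unfold Pool.Agent.N192.GP.Sep
    rw [hb]
    exact bot_le
  have h1 := fam_dimB (η := ηη A V) (S := Finset.univ.map ⟨Sum.inl, Sum.inl_injective⟩)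
    (u := Sum.inr ()) (k := Sum.elim k fun _ => 0) (r := Sum.elim r fun _ => 0)
    (fun s hs => by
      obtain ⟨i, -, rfl⟩ := Finset.mem_map.1 hs
      exact (h i).ok)
    (fun s hs => by
      obtain ⟨i, -, rfl⟩ := Finset.mem_map.1 hs
      exact colG (h i) (hne i))
    (fun s hs => by
      obtain ⟨i, -, rfl⟩ := Finset.mem_map.1 hs
      exact niG (h i) (hn i))
    (fun s hs => by
      obtain ⟨i, -, rfl⟩ := Finset.mem_map.1 hs
      exact perf_fine (h i).fine)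
    (fun s hs t ht hst => by
      obtain ⟨i, -, rfl⟩ := Finset.mem_map.1 hs
      obtain ⟨i', -, rfl⟩ := Finset.mem_map.1 ht
      have hne : i ≠ i' := fun h => hst (by rw [h])
      exact sep_mem (h i) (h i') (hn i) (hn i') (hom i i' hne) (hom i' i (Ne.symm hne)))
    (fun s hs => by
      obtain ⟨i, -, rfl⟩ := Finset.mem_map.1 hs
      exact hnot i)
  rw [Finset.sum_map] at h1
  exact h1

end Fam

section CM

theorem sep_cm {T : Type} [Fintype T] [DecidableEq T] {n : T → ℕ}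
    {η : ∀ t, Basis (Fin (n t)) ℂ ((Fin (n t) → ℚ) →ₗ[ℚ] ℂ)} {s t : T}
    (hperf : gg η s ≤ brk (gg η s) (gg η s))
    (h1 : ∀ X Y : Module.End ℚ (Fin (n t) → ℚ),
      (∀ P, IsDeRhamBettiEnd QBar (η t : Fin (n t) → ((Fin (n t) → ℚ) →ₗ[ℚ] ℂ)) P →
        X * P = P * X) →
      (∀ P, IsDeRhamBettiEnd QBar (η t : Fin (n t) → ((Fin (n t) → ℚ) →ₗ[ℚ] ℂ)) P →
        Y * P = P * Y) → X * Y = Y * X) : Pool.Agent.N192.GP.Sep η s t := by
  refine sep_comm rfl hperf fun x hx y hy => ?_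
  have key : ∀ x ∈ LG η, ∀ P : Module.End ℚ (Fin (n t) → ℚ),
      IsDeRhamBettiEnd QBar (η t : Fin (n t) → ((Fin (n t) → ℚ) →ₗ[ℚ] ℂ)) P →
      x.1 t * P = P * x.1 t := by
    intro x hx P hP
    have h2 : LG η ≤ cent t P := LG_le _ (cent_br t P) fun D lam => NN_comm_end (η t) hP D lam
    exact h2 hx
  exact h1 _ _ (key x hx) (key y hy)

/-- Structures of CM type. -/
theorem sepU_cm {s V : UU} (hperf : ggU s ≤ brk (ggU s) (ggU s))
    (hV : ∀ X Y : Module.End ℚ (Fin V.1 → ℚ),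
      (∀ P, IsDeRhamBettiEnd QBar V.2.eta P → X * P = P * X) →
      (∀ P, IsDeRhamBettiEnd QBar V.2.eta P → Y * P = P * Y) → X * Y = Y * X) : SepU s V := by
  refine sepU_of_pair (sep_cm ?_ ?_)
  · have h1 := pair_gg s V
    rw [← h1] at hperf
    exact hperf
  · change ∀ X Y : Module.End ℚ (Fin V.1 → ℚ),
      (∀ P, IsDeRhamBettiEnd QBar (V.2.basis : Fin V.1 → ((Fin V.1 → ℚ) →ₗ[ℚ] ℂ)) P →
        X * P = P * X) →
      (∀ P, IsDeRhamBettiEnd QBar (V.2.basis : Fin V.1 → ((Fin V.1 → ℚ) →ₗ[ℚ] ℂ)) P →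
        Y * P = P * Y) → X * Y = Y * X
    rw [V.2.coe_basis]
    exact hV

theorem Mem.perfU {I : Type} {g : I → ℕ} {A : ∀ i, AbVar (g i)} {i : I} {k r : ℕ}
    (h : Mem (A i) k r) : ggU ⟨2 * g i, DA A i⟩ ≤
      brk (ggU ⟨2 * g i, DA A i⟩) (ggU ⟨2 * g i, DA A i⟩) := by
  have h1 : ggU ⟨2 * g i, DA (fun _ : Unit => A i) ()⟩ =
      ((A i).NA : Submodule ℚ (Module.End ℚ (A i).H1)) :=
    ggU_fine (I := Unit) (A := fun _ => A i) (i := ()) h.fine
  have h2 := h.fine.perf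
  rw [← h1] at h2
  exact h2

end CM

end Pool.Agent.T9h38.RM
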