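import Pool.Agent.R917.GrpLie

set_option autoImplicit false
set_option maxHeartbeats 1000000
set_option linter.unusedSectionVars false
set_option linter.unusedVariables false

/-!
# The projectors for the multiplication by a number field
-/

open Module Matrix

noncomputable section

namespace Pool.Agent.T9h38.RM

open Pool.Agent.Y102 Pool.Agent.R917

theorem trace_toC {n : ℕ} (X : Module.End ℚ (Fin n → ℚ)) :
    (Pool.Agent.Y102.toC X).trace = ((LinearMap.trace ℚ (Fin n → ℚ) X : ℚ) : ℂ) := by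
  rw [toC_eq, LinearMap.trace_eq_matrix_trace ℚ (Pi.basisFun ℚ (Fin n)),
    LinearMap.toMatrix_eq_toMatrix']
  simp [Matrix.trace]

/-- The trace of the multiplication on a vector space over an extension field. -/
theorem trace_mult {F W : Type} [Field F] [NumberField F] [AddCommGroup W] [Module ℚ W]
    [FiniteDimensional ℚ W] [Module F W] [IsScalarTower ℚ F W] (x : F) (f : Module.End ℚ W)
    (hf : ∀ w, f w = x • w) :
    LinearMap.trace ℚ W f = finrank F W * Algebra.trace ℚ F x := by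
  have : Module.Finite F W := Module.Finite.of_restrictScalars_finite ℚ F W
  let b := Module.finBasis ℚ F
  let c := Module.finBasis F W
  rw [LinearMap.trace_eq_matrix_trace ℚ (b.smulTower c), Algebra.trace_eq_matrix_trace b]
  unfold Matrix.trace
  rw [Fintype.sum_prod_type, Finset.mul_sum]
  refine Finset.sum_congr rfl fun i _ => ?_
  have h1 : ∀ j, ((LinearMap.toMatrix (b.smulTower c) (b.smulTower c)) f).diag (i, j) =
      (Algebra.leftMulMatrix b x).diag i := by
    intro j
    rw [Matrix.diag_apply, Matrix.diag_apply, LinearMap.toMatrix_apply, Basis.smulTower_apply, hf,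
      Basis.smulTower_repr, Algebra.leftMulMatrix_eq_repr_mul, smul_smul, map_smul, Basis.repr_self]
    simp
  rw [Finset.sum_congr rfl fun j _ => h1 j, Finset.sum_const, Finset.card_univ, Fintype.card_fin,
    nsmul_eq_mul]

theorem exists_emb {F : Type} [Field F] [NumberField F] {g n : ℕ} (hF : finrank ℚ F = g)
    (hn : n = 2 * g) (φ : F →ₐ[ℚ] Module.End ℚ (Fin n → ℚ)) :
    ∃ (P : Fin g → Matrix (Fin n) (Fin n) ℂ) (s : Fin g → (F →ₐ[ℚ] ℂ)),
      (∀ i, P i ∈ Submodule.span ℂ {M | ∃ x, M = Pool.Agent.Y102.toC (φ x)}) ∧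
      (∀ i j, P i * P j = if i = j then P i else 0) ∧ ∑ i, P i = 1 ∧ (∀ i, (P i).trace = 2) ∧
      ∀ x i, Pool.Agent.Y102.toC (φ x) * P i = s i x • P i := by
  classical
  let b : Basis (Fin g) ℚ F := finBasisOfFinrankEq ℚ F hF
  have hcard : Fintype.card (F →ₐ[ℚ] ℂ) = g := by rw [AlgHom.card ℚ F ℂ, hF]
  let e : Fin g ≃ (F →ₐ[ℚ] ℂ) := (Fintype.equivFinOfCardEq hcard).symm
  let M : Matrix (Fin g) (Fin g) ℂ := Algebra.embeddingsMatrixReindex ℚ ℂ b e
  have hM : ∀ i j, M i j = e j (b i) := fun i j => by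
    simp [M, Algebra.embeddingsMatrixReindex]
  have hdet : IsUnit M.det := by
    rw [isUnit_iff_ne_zero]
    intro h0
    have h1 := Algebra.discr_eq_det_embeddingsMatrixReindex_pow_two ℚ ℂ b e
    change _ = M.det ^ 2 at h1
    rw [h0, zero_pow two_ne_zero] at h1
    exact Algebra.discr_not_zero_of_basis ℚ b ((map_eq_zero _).1 h1)
  have hMN : M * M⁻¹ = 1 := Matrix.mul_nonsing_inv M hdet
  have hNM : M⁻¹ * M = 1 := Matrix.nonsing_inv_mul M hdet
  let P : Fin g → Matrix (Fin n) (Fin n) ℂ := fun σ =>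
    ∑ k, M⁻¹ σ k • Pool.Agent.Y102.toC (φ (b k))
  have hP : ∀ σ, P σ = ∑ k, M⁻¹ σ k • Pool.Agent.Y102.toC (φ (b k)) := fun _ => rfl
  let L1 : F →ₗ[ℚ] Matrix (Fin n) (Fin n) ℂ :=
    { toFun := fun x => Pool.Agent.Y102.toC (φ x)
      map_add' := fun x y => by rw [map_add, toC_add]
      map_smul' := fun c x => by
        rw [map_smul, toC_smul, RingHom.id_apply]
        exact Rat.cast_smul_eq_qsmul ℂ c _ }
  let L2 : F →ₗ[ℚ] Matrix (Fin n) (Fin n) ℂ :=
    { toFun := fun x => ∑ σ, e σ x • P σ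
      map_add' := fun x y => by
        rw [← Finset.sum_add_distrib]
        exact Finset.sum_congr rfl fun σ _ => by rw [map_add, add_smul]
      map_smul' := fun c x => by
        rw [RingHom.id_apply, Finset.smul_sum]
        refine Finset.sum_congr rfl fun σ _ => ?_
        have h : e σ (c • x) = c • e σ x := (e σ).toLinearMap.map_smul c x
        rw [h, smul_assoc] }
  have hL : L1 = L2 := by
    refine b.ext fun i => ?_
    change Pool.Agent.Y102.toC (φ (b i)) = ∑ σ, e σ (b i) • P σ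
    have h1 : ∀ σ, e σ (b i) • P σ =
        ∑ k, (M i σ * M⁻¹ σ k) • Pool.Agent.Y102.toC (φ (b k)) := by
      intro σ
      rw [hP, Finset.smul_sum, ← hM]
      exact Finset.sum_congr rfl fun k _ => by rw [smul_smul]
    rw [Finset.sum_congr rfl fun σ _ => h1 σ, Finset.sum_comm]
    have h2 : ∀ k, ∑ σ, (M i σ * M⁻¹ σ k) • Pool.Agent.Y102.toC (φ (b k)) =
        (if i = k then (1 : ℂ) else 0) • Pool.Agent.Y102.toC (φ (b k)) := by
      intro k
      rw [← Finset.sum_smul, ← Matrix.mul_apply, hMN, Matrix.one_apply]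
    rw [Finset.sum_congr rfl fun k _ => h2 k, Finset.sum_eq_single i]
    · rw [if_pos rfl, one_smul]
    · intro k _ hk
      rw [if_neg (Ne.symm hk), zero_smul]
    · intro h
      exact absurd (Finset.mem_univ i) h
  have k1 : ∀ x, Pool.Agent.Y102.toC (φ x) = ∑ σ, e σ x • P σ := fun x => LinearMap.congr_fun hL x
  have hd : ∀ σ τ, ∑ k, M⁻¹ σ k * e τ (b k) = if σ = τ then 1 else 0 := by
    intro σ τ
    rw [← Matrix.one_apply, ← hNM, Matrix.mul_apply]
    exact Finset.sum_congr rfl fun k _ => by rw [hM]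
  have k2 : ∀ x σ, Pool.Agent.Y102.toC (φ x) * P σ = e σ x • P σ := by
    intro x σ
    have h1 : ∀ k, Pool.Agent.Y102.toC (φ x) * M⁻¹ σ k • Pool.Agent.Y102.toC (φ (b k)) =
        ∑ τ, (e τ x * (M⁻¹ σ k * e τ (b k))) • P τ := by
      intro k
      rw [mul_smul_comm, ← toC_mul, ← map_mul, k1, Finset.smul_sum]
      refine Finset.sum_congr rfl fun τ _ => ?_
      rw [smul_smul, map_mul]
      congr 1
      ring
    conv_lhs => rw [hP, Finset.mul_sum]
    rw [Finset.sum_congr rfl fun k _ => h1 k, Finset.sum_comm]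
    have h2 : ∀ τ, ∑ k, (e τ x * (M⁻¹ σ k * e τ (b k))) • P τ =
        (e τ x * if σ = τ then 1 else 0) • P τ := by
      intro τ
      rw [← Finset.sum_smul, ← Finset.mul_sum, hd]
    rw [Finset.sum_congr rfl fun τ _ => h2 τ, Finset.sum_eq_single σ]
    · rw [if_pos rfl, mul_one]
    · intro τ _ hτ
      rw [if_neg (Ne.symm hτ), mul_zero, zero_smul]
    · intro h
      exact absurd (Finset.mem_univ σ) h
  refine ⟨P, fun i => e i, fun σ => ?_, fun σ τ => ?_, ?_, fun σ => ?_, k2⟩
  · exact Submodule.sum_mem _ fun k _ => Submodule.smul_mem _ _ (Submodule.subset_span ⟨_, rfl⟩)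
  · conv_lhs => rw [hP σ, Finset.sum_mul]
    have h1 : ∀ k, M⁻¹ σ k • Pool.Agent.Y102.toC (φ (b k)) * P τ =
        (M⁻¹ σ k * e τ (b k)) • P τ := by
      intro k
      rw [smul_mul_assoc, k2, smul_smul]
    rw [Finset.sum_congr rfl fun k _ => h1 k, ← Finset.sum_smul, hd]
    by_cases h : σ = τ
    · rw [if_pos h, if_pos h, one_smul, h]
    · rw [if_neg h, if_neg h, zero_smul]
  · have h1 := k1 1
    rw [map_one, toC_one] at h1
    rw [h1]
    exact Finset.sum_congr rfl fun σ _ => by rw [map_one, one_smul]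
  · letI : Module F (Fin n → ℚ) := Module.compHom (Fin n → ℚ) φ.toRingHom
    have hsm : ∀ (x : F) (w : Fin n → ℚ), x • w = φ x w := fun _ _ => rfl
    haveI : IsScalarTower ℚ F (Fin n → ℚ) := ⟨fun q x w => by
      rw [hsm, hsm, map_smul, LinearMap.smul_apply]⟩
    have hg : 0 < g := by
      rw [← hF]
      exact finrank_pos
    have hfr : finrank F (Fin n → ℚ) = 2 := by
      have h1 := Module.finrank_mul_finrank ℚ F (Fin n → ℚ)
      rw [hF, Module.finrank_fin_fun] at h1
      exact Nat.eq_of_mul_eq_mul_left hg ((h1.trans hn).trans (mul_comm 2 g))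
    have htr : ∀ x, (Pool.Agent.Y102.toC (φ x)).trace = 2 * ∑ τ, e τ x := by
      intro x
      rw [trace_toC, trace_mult x (φ x) fun w => (hsm x w).symm, hfr]
      have h1 := trace_eq_sum_embeddings (K := ℚ) (L := F) ℂ (x := x)
      push_cast
      congr 1
      refine h1.trans ?_
      exact (Equiv.sum_comp e fun τ => τ x).symm
    rw [hP, Matrix.trace_sum]
    have h1 : ∀ k, (M⁻¹ σ k • Pool.Agent.Y102.toC (φ (b k))).trace =
        ∑ τ, 2 * (M⁻¹ σ k * e τ (b k)) := by
      intro k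
      rw [Matrix.trace_smul, htr, smul_eq_mul, Finset.mul_sum, Finset.mul_sum]
      exact Finset.sum_congr rfl fun τ _ => by ring
    rw [Finset.sum_congr rfl fun k _ => h1 k, Finset.sum_comm]
    have h2 : ∀ τ, ∑ k, 2 * (M⁻¹ σ k * e τ (b k)) = (2 : ℂ) * if σ = τ then 1 else 0 := by
      intro τ
      rw [← Finset.mul_sum, hd]
    rw [Finset.sum_congr rfl fun τ _ => h2 τ, ← Finset.mul_sum, Finset.sum_ite_eq,
      if_pos (Finset.mem_univ σ), mul_one]

end Pool.Agent.T9h38.RM
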