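import Pool.Agent.T9h38.RM.LieB
import Pool.Agent.N192.GP.CxF

set_option autoImplicit false
set_option maxHeartbeats 1000000
set_option linter.unusedSectionVars false
set_option linter.unusedVariables false

/-!
# Several members which are not separated from a given one, general colours
-/

open Module Function TensorProduct

noncomputable section

namespace Pool.Agent.T9h38.RM

open Pool.Agent.Y102 Pool.Agent.W516.DR Pool.Agent.H204R3.GP Pool.Agent.W516.KC
  Pool.Agent.H204R3.SP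
open Pool.Agent.N192.GP

attribute [local instance 100] LieRing.ofAssociativeRing

/-- The complexification of the Lie algebra is a sum of `k` simple orthogonal Lie algebras of
rank `r`. -/
structure Col {W : Type} [AddCommGroup W] [Module ℚ W] [FiniteDimensional ℚ W]
    (𝔤 : Submodule ℚ (Module.End ℚ W)) (k r : ℕ) where
  m : ℕ
  q : Fin k → Module.End ℂ (ℂ ⊗[ℚ] W) →ₗ[ℂ] Module.End ℂ (Fin m → ℂ)
  Z : Fin k → ℕ → ℕ → Module.End ℂ (Fin m → ℂ)
  lie : ∀ s, ∀ x ∈ cx 𝔤, ∀ y ∈ cx 𝔤, q s (x * y - y * x) = q s x * q s y - q s y * q s x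
  rel : ∀ s, SoRel r (Z s)
  mem : ∀ s, ∀ x ∈ cx 𝔤, q s x ∈ sp r (Z s)
  surj : ∀ s a b, a < r → b < r → a ≠ b → ∃ x ∈ cx 𝔤, q s x = Z s a b ∧ ∀ t, t ≠ s → q t x = 0
  simple : ∀ s, ∀ J : Submodule ℂ (Module.End ℂ (Fin m → ℂ)), J ≤ sp r (Z s) →
    (∀ x ∈ sp r (Z s), ∀ y ∈ J, x * y - y * x ∈ J) → J = ⊥ ∨ J = sp r (Z s)
  ne : ∀ s, Z s 0 1 ≠ 0
  inj : ∀ x ∈ cx 𝔤, (∀ s, q s x = 0) → x = 0

section Dim

variable {T : Type} [Fintype T] [DecidableEq T] {n : T → ℕ}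
  {η : ∀ t, Basis (Fin (n t)) ℂ ((Fin (n t) → ℚ) →ₗ[ℚ] ℂ)}

/-- **Several members which are not separated from the member `u`.** -/
theorem fam_dimB {S : Finset T} {u : T} {k r : T → ℕ} (h6 : ∀ s ∈ S, Ok (r s))
    (hK : ∀ s ∈ S, Nonempty (Col (gg η s) (k s) (r s))) (hni : ∀ s ∈ S, NoIdeals (gg η s))
    (hperf : ∀ s ∈ S, gg η s ≤ brk (gg η s) (gg η s))
    (hsep : ∀ s ∈ S, ∀ t ∈ S, s ≠ t → Sep η s t) (hnot : ∀ s ∈ S, ¬Sep η s u) :
    ∑ s ∈ S, k s * bet (r s) ≤ n u := by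
  classical
  let K : ∀ s : S, Col (gg η s.1) (k s.1) (r s.1) := fun s => (hK s.1 s.2).some
  let 𝔮 : Submodule ℚ (EQ n) := (LG η ⊓ tw0).map (LinearMap.fst ℚ _ _)
  have hbr : ∀ x ∈ 𝔮, ∀ y ∈ 𝔮, x * y - y * x ∈ 𝔮 := by
    rintro _ ⟨x, hx, rfl⟩ _ ⟨y, hy, rfl⟩
    exact ⟨x * y - y * x, (idl_tw0 η).2 x hx.1 y hy, rfl⟩
  have hprj : ∀ {𝔞 : Submodule ℚ (RR n)}, 𝔞 ≤ tw0 → ∀ t : T,
      (𝔞.map (LinearMap.fst ℚ _ _)).map (LinearMap.proj t) = 𝔞.map (pr t) := by
    intro 𝔞 h𝔞 t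
    ext X
    constructor
    · rintro ⟨_, ⟨x, hx, rfl⟩, rfl⟩
      refine ⟨x, hx, ?_⟩
      have h1 : x.2 = 0 := h𝔞 hx
      rw [pr_apply, h1, zero_div, zero_smul, sub_zero]
      rfl
    · rintro ⟨x, hx, rfl⟩
      refine ⟨x.1, ⟨x, hx, rfl⟩, ?_⟩
      have h1 : x.2 = 0 := h𝔞 hx
      rw [pr_apply, h1, zero_div, zero_smul, sub_zero]
      rfl
  have h𝔮 : ∀ s ∈ S, 𝔮.map (LinearMap.proj s) = gg η s := by
    intro s hs
    rw [hprj inf_le_right]
    exact le_antisymm (Submodule.map_mono inf_le_left) (sep_tw0 rfl (hperf s hs))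
  let L : LieSubalgebra ℂ (EC n) :=
    { cxF 𝔮 with lie_mem' := fun {x y} hx hy => cxF_br hbr x hx y hy }
  let : LieRingModule L (ℂ ⊗[ℚ] (Fin (n u) → ℚ)) :=
    { bracket := fun x m => x.1 u m
      add_lie := fun x y m => rfl
      lie_add := fun x m n => map_add _ _ _
      leibniz_lie := fun x y m => by
        change x.1 u (y.1 u m) = (x.1 u * y.1 u - y.1 u * x.1 u) m + y.1 u (x.1 u m)
        rw [LinearMap.sub_apply, Module.End.mul_apply, Module.End.mul_apply, sub_add_cancel] }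
  let : LieModule ℂ L (ℂ ⊗[ℚ] (Fin (n u) → ℚ)) :=
    { smul_lie := fun t x m => rfl
      lie_smul := fun t x m => map_smul _ _ _ }
  have : FiniteDimensional ℂ L := inferInstanceAs (FiniteDimensional ℂ (cxF 𝔮))
  have hmem : ∀ (s : S) (x : L), x.1 s.1 ∈ cx (gg η s.1) := by
    intro s x
    rw [← h𝔮 s.1 s.2, ← cxF_proj]
    exact ⟨x.1, x.2, rfl⟩
  let q : ∀ x : (Σ s : S, Fin (k s.1)), L →ₗ[ℂ] Module.End ℂ (Fin (K x.1).m → ℂ) :=
    fun x => ((K x.1).q x.2) ∘ₗ (LinearMap.proj x.1.1) ∘ₗ (cxF 𝔮).subtype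
  have hq : ∀ x (y : L), q x y = (K x.1).q x.2 (y.1 x.1.1) := fun x y => rfl
  -- the separation of the members of `S` from each other
  have hlift : ∀ s ∈ S, gg η s ≤ ((LG η ⊓ tw0) ⊓ ⨅ t ∈ S.erase s, (LG η ⊓ at0 t)).map (pr s) := by
    intro s hs
    let 𝔫 : T → Submodule ℚ (RR n) := fun t => if t = s then LG η ⊓ tw0 else LG η ⊓ at0 t
    have h1 : ∀ t, Idl (𝔫 t) (LG η) := by
      intro t
      by_cases ht : t = s
      · simp only [𝔫, if_pos ht]
        exact idl_tw0 η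
      · simp only [𝔫, if_neg ht]
        exact idl_at0 η t
    refine (ribet (pr_hm s (LG η)) (hperf s hs) le_rfl h1 S (fun t ht => ?_)).trans
      (Submodule.map_mono fun x hx => ?_)
    · by_cases hts : t = s
      · simp only [𝔫, if_pos hts]
        exact sep_tw0 rfl (hperf s hs)
      · simp only [𝔫, if_neg hts]
        exact hsep s hs t ht (Ne.symm hts)
    · have h2 : ∀ t ∈ S, x ∈ 𝔫 t := fun t ht =>
        (Submodule.mem_iInf _).1 ((Submodule.mem_iInf _).1 hx.2 t) ht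
      refine ⟨?_, ?_⟩
      · have h3 := h2 s hs
        simp only [𝔫, if_true] at h3
        exact h3
      · simp only [SetLike.mem_coe, Submodule.mem_iInf]
        intro t ht
        have h3 := h2 t (Finset.mem_of_mem_erase ht)
        simp only [𝔫, if_neg (Finset.ne_of_mem_erase ht)] at h3
        exact h3
  have D : DatG (fun x : (Σ s : S, Fin (k s.1)) => r x.1.1) Finset.univ q
      (fun x => (K x.1).Z x.2) := by
    refine ⟨fun x _ y z => ?_, fun x _ => (K x.1).rel x.2, fun x _ y => ?_,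
      fun x _ a b ha hb hab => ?_, fun x _ J hJ hJ2 => ?_, fun x _ => (K x.1).ne x.2⟩
    · rw [hq, hq, hq]
      exact (K x.1).lie x.2 _ (hmem x.1 y) _ (hmem x.1 z)
    · rw [hq]
      exact (K x.1).mem x.2 _ (hmem x.1 y)
    · obtain ⟨s, σ⟩ := x
      obtain ⟨z, hz, hz1, hz2⟩ := (K s).surj σ a b ha hb hab
      have h2 : z ∈ cx (((((LG η ⊓ tw0) ⊓ ⨅ t ∈ S.erase s.1, (LG η ⊓ at0 t)).map
          (LinearMap.fst ℚ _ _))).map (LinearMap.proj s.1)) := by
        rw [hprj (inf_le_left.trans inf_le_right)]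
        exact cx_mono (hlift s.1 s.2) hz
      rw [← cxF_proj] at h2
      obtain ⟨y, hy, hy2⟩ := h2
      have hy2' : y s.1 = z := hy2
      have hy0 : ∀ t ∈ S, t ≠ s.1 → y t = 0 := by
        intro t ht hts
        have h3 : ∀ y ∈ cxF (n := n) (((LG η ⊓ tw0) ⊓ ⨅ t ∈ S.erase s.1, (LG η ⊓ at0 t)).map
          (LinearMap.fst ℚ (EQ n) ℚ)), y t = 0 := by
          intro y hy
          induction hy using Submodule.span_induction with
          | mem y hy =>
            obtain ⟨_, ⟨ℓ, hℓ, rfl⟩, rfl⟩ := hy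
            have h4 := (Submodule.mem_iInf _).1 ((Submodule.mem_iInf _).1 hℓ.2 t)
              (Finset.mem_erase.2 ⟨hts, ht⟩)
            have h5 : ℓ.1 t = 0 := h4.2
            change (ℓ.1 t).baseChange ℂ = 0
            rw [h5, LinearMap.baseChange_zero]
          | zero => rfl
          | add y z _ _ hy hz => rw [Pi.add_apply, hy, hz, add_zero]
          | smul c y _ hy => rw [Pi.smul_apply, hy, smul_zero]
        exact h3 y hy
      have hyL : y ∈ cxF 𝔮 := cxF_mono (𝔮 := 𝔮) (Submodule.map_mono inf_le_left) hy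
      refine ⟨⟨y, hyL⟩, ?_, fun x _ hx => ?_⟩
      · rw [hq]
        change (K s).q σ (y s.1) = _
        rw [hy2', hz1]
      · rw [hq]
        obtain ⟨t, τ⟩ := x
        change (K t).q τ (y t.1) = _
        by_cases hts : t = s
        · subst hts
          rw [hy2']
          exact hz2 τ fun h => hx (by rw [h])
        · rw [hy0 t.1 t.2 (fun h => hts (Subtype.ext h)), map_zero]
    · exact (K x.1).simple x.2 J hJ hJ2
  -- the kernel
  have hker0 : ∀ s ∈ S, ∀ ℓ ∈ LG η ⊓ tw0, ℓ.1 u = 0 → ℓ.1 s = 0 := by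
    intro s hs ℓ hℓ hu
    let I : Submodule ℚ (Module.End ℚ (Fin (n s) → ℚ)) := ((LG η ⊓ at0 u) ⊓ tw0).map (pr s)
    have hI : Idl I (gg η s) := by
      refine ⟨Submodule.map_mono (inf_le_left.trans inf_le_left), ?_⟩
      rintro _ ⟨x, hx, rfl⟩ _ ⟨y, hy, rfl⟩
      exact ⟨x * y - y * x, ⟨(idl_at0 η u).2 x hx y hy.1, br_snd x y⟩,
        pr_hm s (LG η) x hx y hy.1.1⟩
    rcases hni s hs I hI with h0 | h0
    · have h1 : pr s ℓ ∈ I := ⟨ℓ, ⟨⟨hℓ.1, hu⟩, hℓ.2⟩, rfl⟩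
      rw [h0, Submodule.mem_bot] at h1
      have h2 : ℓ.2 = 0 := hℓ.2
      rwa [pr_apply, h2, zero_div, zero_smul, sub_zero] at h1
    · exfalso
      refine hnot s hs ?_
      unfold Pool.Agent.N192.GP.Sep
      rw [← h0]
      exact Submodule.map_mono inf_le_left
  have h1 := datB_dim (L := L) (M := ℂ ⊗[ℚ] (Fin (n u) → ℚ))
    (finrank ℂ (ℂ ⊗[ℚ] (Fin (n u) → ℚ))) (fun x _ => h6 x.1.1 x.1.2) le_rfl D
    (fun x hx y _ => by
      have h2 : x.1 u = 0 := LinearMap.ext fun m => hx m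
      have h3 : x.1 y.1.1 = 0 := by
        refine cmpE_ext fun lam => ?_
        obtain ⟨ℓ, hℓ, h4⟩ := cxF_comp x.2 lam
        have h5 : ∀ t, ℓ.1 t = cmpE lam (x.1 t) := fun t => congrFun h4 t
        rw [← h5]
        refine hker0 y.1.1 y.1.2 ℓ hℓ ?_
        rw [h5, h2]
        refine LinearMap.ext fun w => ?_
        rw [cmpE_apply, LinearMap.zero_apply, map_zero]
        rfl
      rw [hq, h3, map_zero])
  rw [Module.finrank_baseChange, Module.finrank_fin_fun, Fintype.sum_sigma] at h1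
  simp only [Finset.sum_const, Finset.card_univ, Fintype.card_fin, smul_eq_mul] at h1
  rwa [Finset.sum_coe_sort S (fun s => k s * bet (r s))] at h1

end Dim

end Pool.Agent.T9h38.RM
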