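import Pool.Agent.T9h38.RM.ColB

set_option autoImplicit false
set_option maxHeartbeats 1000000
set_option linter.unusedSectionVars false
set_option linter.unusedVariables false

/-!
# The colours of a Lie algebra of spin type
-/

open Module Function TensorProduct

noncomputable section

namespace Pool.Agent.T9h38.RM

open Pool.Agent.Y102 Pool.Agent.W516.DR Pool.Agent.H204R3.GP Pool.Agent.W516.KC
  Pool.Agent.H204R3.SP
open Pool.Agent.N192.GP

section Conj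

variable {U U' : Type} [AddCommGroup U] [Module ℂ U] [AddCommGroup U'] [Module ℂ U']
  (Φ : Module.End ℂ U ≃ₐ[ℂ] Module.End ℂ U') {r : ℕ} {Z : ℕ → ℕ → Module.End ℂ U}

theorem soRel_conj (h : SoRel r Z) : SoRel r (fun a b => Φ (Z a b)) where
  anti a b ha hb hab := by rw [h.anti a b ha hb hab, map_neg]
  br a b c ha hb hc hab hbc hac := by
    rw [← map_mul, ← map_mul, ← map_sub, h.br a b c ha hb hc hab hbc hac, map_smul]
  comm a b c d ha hb hc hd hab hcd hac had hbc hbd := by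
    rw [← map_mul, ← map_mul, h.comm a b c d ha hb hc hd hab hcd hac had hbc hbd]

theorem sp_conj : sp r (fun a b => Φ (Z a b)) = (sp r Z).map Φ.toLinearMap := by
  unfold sp
  rw [Submodule.map_span]
  congr 1
  ext X
  constructor
  · rintro ⟨a, b, ha, hb, hab, rfl⟩
    exact ⟨_, ⟨a, b, ha, hb, hab, rfl⟩, rfl⟩
  · rintro ⟨_, ⟨a, b, ha, hb, hab, rfl⟩, rfl⟩
    exact ⟨a, b, ha, hb, hab, rfl⟩

theorem simple_conj (h : ∀ J : Submodule ℂ (Module.End ℂ U), J ≤ sp r Z →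
    (∀ x ∈ sp r Z, ∀ y ∈ J, x * y - y * x ∈ J) → J = ⊥ ∨ J = sp r Z)
    (J : Submodule ℂ (Module.End ℂ U')) (hJ : J ≤ sp r (fun a b => Φ (Z a b)))
    (hJ2 : ∀ x ∈ sp r (fun a b => Φ (Z a b)), ∀ y ∈ J, x * y - y * x ∈ J) :
    J = ⊥ ∨ J = sp r (fun a b => Φ (Z a b)) := by
  rw [sp_conj] at hJ hJ2 ⊢
  have h0 : (J.comap Φ.toLinearMap).map Φ.toLinearMap = J := by
    refine Submodule.map_comap_eq_of_surjective ?_ J
    exact Φ.surjective
  rcases h (J.comap Φ.toLinearMap) (fun x hx => by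
      obtain ⟨y, hy, hyx⟩ := hJ hx
      have h1 : y = x := Φ.injective hyx
      rwa [h1] at hy) (fun x hx y hy => by
      have h1 := hJ2 (Φ x) ⟨x, hx, rfl⟩ (Φ y) hy
      change Φ (x * y - y * x) ∈ J
      rw [map_sub, map_mul, map_mul]
      exact h1) with h1 | h1
  · left
    rw [← h0, h1, Submodule.map_bot]
  · right
    rw [← h0, h1]

end Conj

/-- The colours of a Lie algebra of spin type. -/
theorem col_of_spin {W : Type} [AddCommGroup W] [Module ℚ W] [FiniteDimensional ℚ W]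
    [Nontrivial (ℂ ⊗[ℚ] W)]
    {𝔤 : Submodule ℚ (Module.End ℚ W)} {k r : ℕ} (h : SpinK 𝔤 k r) (h6 : 6 ≤ r) :
    Nonempty (Col 𝔤 k r) := by
  obtain ⟨N, E, c, hE, hc, hg⟩ := h
  choose Z hZ1 hZ2 hZ3 using fun x : Fin k => exists_enumZ hE x (hc x)
  have hs6 : ∀ σ, 6 ≤ (Finset.univ.filter fun j => c j = σ).card := by
    intro σ
    rw [hc]
    exact h6
  let e : (ℂ ⊗[ℚ] W) ≃ₗ[ℂ] (Fin (finrank ℂ (ℂ ⊗[ℚ] W)) → ℂ) :=
    (Module.finBasis ℂ (ℂ ⊗[ℚ] W)).equivFun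
  let Φ : Module.End ℂ (ℂ ⊗[ℚ] W) ≃ₐ[ℂ] Module.End ℂ (Fin (finrank ℂ (ℂ ⊗[ℚ] W)) → ℂ) :=
    e.conjAlgEquiv ℂ
  have hlie : ∀ s, ∀ x ∈ cx 𝔤, ∀ y ∈ cx 𝔤, (Φ.toLinearMap ∘ₗ SP.pS E c s) (x * y - y * x) =
      (Φ.toLinearMap ∘ₗ SP.pS E c s) x * (Φ.toLinearMap ∘ₗ SP.pS E c s) y -
        (Φ.toLinearMap ∘ₗ SP.pS E c s) y * (Φ.toLinearMap ∘ₗ SP.pS E c s) x := by
    intro s x hx y hy
    rw [hg] at hx hy
    change Φ (SP.pS E c s (x * y - y * x)) = Φ (SP.pS E c s x) * Φ (SP.pS E c s y) -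
      Φ (SP.pS E c s y) * Φ (SP.pS E c s x)
    rw [SP.pS_br hE hx hy, map_sub, map_mul, map_mul]
  have hmem : ∀ s, ∀ x ∈ cx 𝔤, (Φ.toLinearMap ∘ₗ SP.pS E c s) x ∈
      sp r (fun a b => Φ (Z s a b)) := by
    intro s x hx
    rw [hg] at hx
    rw [sp_conj, hZ2]
    exact ⟨_, SP.pS_mem hE hx, rfl⟩
  have hsurj : ∀ s a b, a < r → b < r → a ≠ b → ∃ x ∈ cx 𝔤,
      (Φ.toLinearMap ∘ₗ SP.pS E c s) x = Φ (Z s a b) ∧
        ∀ t, t ≠ s → (Φ.toLinearMap ∘ₗ SP.pS E c t) x = 0 := by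
    intro s a b ha hb hab
    have h1 : Z s a b ∈ SP.soS E c s := by
      rw [← hZ2 s]
      exact mem_sp ha hb hab
    refine ⟨Z s a b, ?_, ?_, fun t ht => ?_⟩
    · rw [hg]
      exact SP.soS_le s h1
    · change Φ (SP.pS E c s (Z s a b)) = _
      rw [SP.pS_same hE h1]
    · change Φ (SP.pS E c t (Z s a b)) = 0
      rw [SP.pS_other hE ht h1, map_zero]
  exact ⟨Col.mk (finrank ℂ (ℂ ⊗[ℚ] W)) (fun s => Φ.toLinearMap ∘ₗ SP.pS E c s)
    (fun s a b => Φ (Z s a b)) hlie (fun s => soRel_conj Φ (hZ1 s)) hmem hsurj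
    (fun s => simple_conj Φ fun J hJ hJ2 => by
      rw [hZ2] at hJ hJ2 ⊢
      exact SP.ColMain_simple hE (hs6 s) J hJ hJ2)
    (fun s h0 => hZ3 s 0 1 (by omega) (by omega) (by omega)
      (by
        have h1 : Φ (Z s 0 1) = Φ 0 := by rw [map_zero]; exact h0
        exact Φ.injective h1))
    (fun x hx h0 => by
      rw [hg] at hx
      refine (SP.pS_sum hE hx).trans (Finset.sum_eq_zero fun s _ => ?_)
      have h1 : Φ (SP.pS E c s x) = Φ 0 := by rw [map_zero]; exact h0 s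
      exact Φ.injective h1)⟩

end Pool.Agent.T9h38.RM
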