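import Pool.Agent.N192.GP.TorW
import Pool.Agent.N192.GP.SepF

set_option autoImplicit false
set_option maxHeartbeats 1000000
set_option linter.unusedSectionVars false
set_option linter.unusedVariables false

/-!
# Families of abelian varieties with minimal and perfect Lie algebras
-/

open Module Function TensorProduct Matrix

noncomputable section

namespace Pool.Agent.T9h38.RM

open Pool.Agent.Y102 Pool.Agent.W516.DR Pool.Agent.H204R3.GP Pool.Agent.W516.KC
  Pool.Agent.H204R3.SP Pool.Agent.TH119.MX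
open Pool.Agent.N192.GP hiding XX QQ
open Pool.Agent.N192.GT
open Pool.Agent.R917 (QQ QA QQ_le_QA mem_QA lamF lamF_apply derQ hm hm_apply)

/-- The Lie algebra of `A` is perfect, and equal to all its subalgebras which act semisimply with the
same commutant. -/
structure Fine {g : ℕ} (A : AbVar g) : Prop where
  min : ∀ 𝔥, A.Full 𝔥 → A.NA ≤ 𝔥
  perf : A.NA ≤ brk A.NA A.NA

section Fam

variable {I J : Type} [Fintype I] [DecidableEq I] [Fintype J] [DecidableEq J]
  {g : I → ℕ} {A : ∀ i, AbVar (g i)} {d : J → ℕ} {V : ∀ j, DRS (d j)}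

theorem gg_fine {i : I} (h : Fine (A i)) :
    gg (ηη A V) (Sum.inl i) = ((A i).NA : Submodule ℚ (Module.End ℚ (A i).H1)) := by
  have h1 := gg_full A V i
  exact le_antisymm h1.le (h.min _ h1)

theorem ggU_fine {i : I} (h : Fine (A i)) :
    ggU ⟨2 * g i, DA A i⟩ = ((A i).NA : Submodule ℚ (Module.End ℚ (A i).H1)) := by
  rw [ggU_eq A (fun j : Empty => (j.elim : DRS (Empty.elim j)))]
  exact gg_fine h

theorem perf_fine {i : I} (h : Fine (A i)) :
    gg (ηη A V) (Sum.inl i) ≤ brk (gg (ηη A V) (Sum.inl i)) (gg (ηη A V) (Sum.inl i)) := by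
  have h1 := h.perf
  have h2 := gg_fine (V := V) h
  rw [← h2] at h1
  exact h1

/-- The conditions for the family. -/
structure Fit (A : ∀ i, AbVar (g i)) (V : ∀ j, DRS (d j)) : Prop where
  fine : ∀ i, Fine (A i)
  sep : ∀ i i', i ≠ i' → Pool.Agent.N192.GP.Sep (ηη A V) (Sum.inl i) (Sum.inl i')
  sepV : ∀ i j, Pool.Agent.N192.GP.Sep (ηη A V) (Sum.inl i) (Sum.inr j)

namespace Fit

variable (h : Fit A V)
include h

theorem perf (s : I ⊕ J) (hs : isA s) :
    gg (ηη A V) s ≤ brk (gg (ηη A V) s) (gg (ηη A V) s) := by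
  rcases s with i | j
  · exact perf_fine (h.fine i)
  · exact absurd hs (by simp [isA])

theorem dich (s t : I ⊕ J) (hs : isA s) (ht : isA t) :
    Linked (ηη A V) s t ∨ Pool.Agent.N192.GP.Sep (ηη A V) s t := by
  rcases s with i | j
  swap
  · exact absurd hs (by simp [isA])
  rcases t with i' | j
  swap
  · exact absurd ht (by simp [isA])
  by_cases hne : i = i'
  · subst hne
    exact Or.inl (Linked.refl _)
  · exact Or.inr (h.sep i i' hne)

theorem sepV' (s t : I ⊕ J) (hs : isA s) (ht : ¬isA t) :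
    Pool.Agent.N192.GP.Sep (ηη A V) s t := by
  rcases s with i | j
  swap
  · exact absurd hs (by simp [isA])
  rcases t with i' | j
  · exact absurd rfl ht
  exact h.sepV i j

/-- Families of elements. -/
theorem mem_LG {X : ∀ i, Module.End ℚ (Fin (2 * g i) → ℚ)}
    (hX : ∀ i, (X i : Module.End ℚ (Fin (nn g d (Sum.inl i)) → ℚ)) ∈
      gg (ηη A V) (Sum.inl i)) :
    ∃ Y : ∀ t, Module.End ℚ (Fin (nn g d t) → ℚ), ((Y, 0) : RR (nn g d)) ∈ LG (ηη A V) ∧
      (∀ i, Y (Sum.inl i) = X i) ∧ ∀ j, Y (Sum.inr j) = 0 := by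
  let Y : ∀ t, Module.End ℚ (Fin (nn g d t) → ℚ) := fun t => match t with
    | Sum.inl i => X i
    | Sum.inr j => 0
  refine ⟨Y, compat_mem (a := isA) h.perf h.dich h.sepV' ?_ ?_ ?_, fun i => rfl, fun j => rfl⟩
  · intro t ht
    rcases t with i | j
    · exact absurd rfl ht
    · rfl
  · intro t ht
    rcases t with i | j
    · exact hX i
    · exact absurd ht (by simp [isA])
  · intro s t hs ht hst
    rcases s with i | j
    swap
    · exact absurd hs (by simp [isA])
    rcases t with i' | j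
    swap
    · exact absurd ht (by simp [isA])
    by_cases hne : i = i'
    · subst hne
      obtain ⟨ℓ, hℓ, h1⟩ := hX i
      exact ⟨ℓ, hℓ, Prod.ext h1 h1⟩
    · have h1 := bot_of_both hst (h.sep i i' hne) (h.perf _ hs)
      have h2 := hst.bot h1
      have e1 : Y (Sum.inl i) = 0 := by
        have h3 := hX i
        rw [h1] at h3
        exact (Submodule.mem_bot ℚ).1 h3
      have e2 : Y (Sum.inl i') = 0 := by
        have h3 := hX i'
        rw [h2] at h3
        exact (Submodule.mem_bot ℚ).1 h3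
      have h3 : (Y (Sum.inl i), Y (Sum.inl i')) = 0 := Prod.ext e1 e2
      rw [h3]
      exact Submodule.zero_mem _

/-- The complex structure. -/
theorem J_mem (lam : ℝ →ₗ[ℚ] ℚ) :
    ∃ X : ∀ t, Module.End ℚ (Fin (nn g d t) → ℚ), ((X, 0) : RR (nn g d)) ∈ LG (ηη A V) ∧
      (∀ i, X (Sum.inl i) = (A i).cmpE lam AbVar.JJ) ∧ ∀ j, X (Sum.inr j) = 0 := by
  refine h.mem_LG (X := fun i => (A i).cmpE lam AbVar.JJ) fun i => ?_
  have h1 := gg_fine (V := V) (h.fine i)
  have h2 := (A i).MA_le_NA ((A i).J_mem lam)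
  rw [← h1] at h2
  exact h2

/-- The normalized parts. -/
theorem pr_mem {ℓ : RR (nn g d)} (hℓ : ℓ ∈ LG (ηη A V)) :
    ∃ X : ∀ t, Module.End ℚ (Fin (nn g d t) → ℚ), ((X, 0) : RR (nn g d)) ∈ LG (ηη A V) ∧
      (∀ i, X (Sum.inl i) = pr (Sum.inl i) ℓ) ∧ ∀ j, X (Sum.inr j) = 0 :=
  h.mem_LG (X := fun i => pr (Sum.inl i) ℓ) fun i => ⟨ℓ, hℓ, rfl⟩

variable {H : Set (Matrix (Row g d) (Row g d) ℂ)}

/-- The complex structure is in the Lie algebra of the group. -/
theorem stab_J (hH : PtW (bR g d) (fR A V) H) (δ : ℕ) :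
    Stab H δ (rho A d Complex.I 0) := by
  classical
  obtain ⟨s, hs⟩ := R917.exists_coords (fun p : Σ i, Fin (2 * g i) × Fin (2 * g i) =>
    (A p.1).lam.repr (Complex.I • (A p.1).lam p.2.1) p.2.2)
  let f : Basis.ofVectorSpaceIndex ℚ ℝ → (ℝ →ₗ[ℚ] ℚ) := fun k => (Basis.ofVectorSpace ℚ ℝ).coord k
  choose X hX1 hX2 hX3 using fun k => h.J_mem (f k)
  have h1 : rho A d Complex.I 0 = ∑ k ∈ s, ((Basis.ofVectorSpace ℚ ℝ k : ℝ) : ℂ) •
      (tC (bR g d) (act (X k)))ᵀ := by
    ext a c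
    rw [Matrix.sum_apply]
    have h0 : ∀ k, (((Basis.ofVectorSpace ℚ ℝ k : ℝ) : ℂ) • (tC (bR g d) (act (X k)))ᵀ) a c =
        ((Basis.ofVectorSpace ℚ ℝ k : ℝ) : ℂ) *
          (((bR g d).repr (act (X k) (bR g d a)) c : ℚ) : ℂ) := by
      intro k
      rw [Matrix.smul_apply, Matrix.transpose_apply, tC_apply, smul_eq_mul]
    rw [Finset.sum_congr rfl fun k _ => h0 k]
    rcases a with ⟨i, p⟩ | ⟨j, p⟩ <;> rcases c with ⟨i', q⟩ | ⟨j', q⟩
    · unfold rho
      rw [fromBlocks_apply₁₁]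
      by_cases hii : i = i'
      · subst hii
        rw [blockDiagonal'_apply_eq, hm_apply]
        have h3 := hs ⟨i, p, q⟩
        rw [h3]
        push_cast
        refine Finset.sum_congr rfl fun k _ => ?_
        rw [mul_comm, rep_same p q (hX2 k i), AbVar.cmpE_apply]
        congr 1
        have h5 : (A i).per (Pi.single p 1) = (A i).lam p := by
          have h6 := (A i).per_bas p
          unfold AbVar.bas at h6
          rwa [Pi.basisFun_apply] at h6
        rw [h5]
        rfl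
      · rw [blockDiagonal'_apply_ne _ _ _ hii]
        refine (Finset.sum_eq_zero fun k _ => ?_).symm
        rw [rep_ne (X k) hii, Rat.cast_zero, mul_zero]
    · unfold rho
      rw [fromBlocks_apply₁₂, Matrix.zero_apply]
      refine (Finset.sum_eq_zero fun k _ => ?_).symm
      rw [rep_lr, Rat.cast_zero, mul_zero]
    · unfold rho
      rw [fromBlocks_apply₂₁, Matrix.zero_apply]
      refine (Finset.sum_eq_zero fun k _ => ?_).symm
      rw [rep_rl, Rat.cast_zero, mul_zero]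
    · unfold rho
      rw [fromBlocks_apply₂₂, zero_smul, Matrix.zero_apply]
      refine (Finset.sum_eq_zero fun k _ => ?_).symm
      rw [rep_rr (hX3 k), Rat.cast_zero, mul_zero]
  rw [h1]
  exact stab_sumW s _ fun k _ => (PtW.LG_mem (ηη A V) (eR g d) (eR g d) hH (hX1 k) δ).smul _

/-- The group contains the circle. -/
theorem rho_mem (hH : PtW (bR g d) (fR A V) H) {z : ℂ} (hz : ‖z‖ = 1) :
    rho A d z 1 ∈ H := by
  have h1 : Complex.exp (Complex.arg z * Complex.I) = z := by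
    have h2 := Complex.norm_mul_exp_arg_mul_I z
    rwa [hz, Complex.ofReal_one, one_mul] at h2
  rw [← h1, ← Complex.exp_zero, rho_exp]
  refine R917.exp_mem hH.grp fun δ => ?_
  have h3 : rho A d (Complex.arg z * Complex.I) 0 = (Complex.arg z : ℂ) • rho A d Complex.I 0 := by
    rw [← rho_real, mul_zero]
  rw [h3]
  exact (h.stab_J hH δ).smul _

/-- The element which defines the weights. -/
theorem exists_weight : ∃ ℓ ∈ LG (ηη A V), ∀ i,
    ℓ.1 (Sum.inl i) = (1 : Module.End ℚ (Fin (2 * g i) → ℚ)) := by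
  obtain ⟨D, lam, hne⟩ := R917.exists_der
  have h0 : tt D lam / 2 ≠ 0 := by
    have h1 : lam (D tau / (2 * tau)) = tt D lam / 2 := by
      unfold tt
      have h2 : D tau / (2 * tau) = (2⁻¹ : ℚ) • (D tau / tau) := by
        rw [Rat.smul_def]
        push_cast
        rw [mul_comm (2 : ℂ) tau, ← div_div, div_eq_mul_inv _ (2 : ℂ), mul_comm]
      rw [h2, map_smul, smul_eq_mul]
      ring
    rwa [h1] at hne
  obtain ⟨X, hX, h1, h2⟩ := h.pr_mem (gn_mem_LG _ D lam)
  refine ⟨(tt D lam / 2)⁻¹ • (gn (ηη A V) D lam - (X, 0)),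
    (LG (ηη A V)).smul_mem _ ((LG (ηη A V)).sub_mem (gn_mem_LG _ D lam) hX), fun i => ?_⟩
  have h3 : (tt D lam / 2)⁻¹ • ((gn (ηη A V) D lam).1 (Sum.inl i) - X (Sum.inl i)) =
      (1 : Module.End ℚ (Fin (nn g d (Sum.inl i)) → ℚ)) := by
    rw [h1 i, pr_apply, sub_sub_cancel, smul_smul]
    change ((tt D lam / 2)⁻¹ * (tt D lam / 2)) • (1 : Module.End ℚ (Fin (2 * g i) → ℚ)) = 1
    rw [inv_mul_cancel₀ h0, one_smul]
  exact h3

theorem stab_weight (hH : PtW (bR g d) (fR A V) H) :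
    ∃ M : Matrix (Σ j, Fin (d j)) (Σ j, Fin (d j)) ℂ, ∀ δ,
      Stab H δ (fromBlocks (1 : Matrix (Σ i, Fin (2 * g i)) (Σ i, Fin (2 * g i)) ℂ) 0 0 M) := by
  obtain ⟨ℓ, hℓ, h1⟩ := h.exists_weight
  refine ⟨((tC (bR g d) (act ℓ.1))ᵀ).toBlocks₂₂, fun δ => ?_⟩
  have h2 : (tC (bR g d) (act ℓ.1))ᵀ = fromBlocks
      (1 : Matrix (Σ i, Fin (2 * g i)) (Σ i, Fin (2 * g i)) ℂ) 0 0
      ((tC (bR g d) (act ℓ.1))ᵀ).toBlocks₂₂ := by
    ext a c
    rcases a with ⟨i, p⟩ | ⟨j, p⟩ <;> rcases c with ⟨i', q⟩ | ⟨j', q⟩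
    · rw [fromBlocks_apply₁₁, Matrix.transpose_apply, tC_apply]
      by_cases hii : i = i'
      · subst hii
        rw [rep_same p q (h1 i), Module.End.one_apply, Matrix.one_apply, Pi.single_apply]
        by_cases hpq : p = q
        · subst hpq
          rw [if_pos rfl, if_pos rfl, Rat.cast_one]
        · rw [if_neg (Ne.symm hpq), if_neg, Rat.cast_zero]
          intro h'
          exact hpq (eq_of_heq (Sigma.mk.inj h').2)
      · rw [rep_ne ℓ.1 hii, Matrix.one_apply_ne, Rat.cast_zero]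
        intro h'
        exact hii (Sigma.mk.inj h').1
    · rw [fromBlocks_apply₁₂, Matrix.transpose_apply, tC_apply, rep_lr, Rat.cast_zero,
        Matrix.zero_apply]
    · rw [fromBlocks_apply₂₁, Matrix.transpose_apply, tC_apply, rep_rl, Rat.cast_zero,
        Matrix.zero_apply]
    · rfl
  have h3 := PtW.LG_mem (ηη A V) (eR g d) (eR g d) hH hℓ δ
  have h4 : ∀ Z : Matrix (Row g d) (Row g d) ℂ, (tC (bR g d) (act ℓ.1))ᵀ = Z → Stab H δ Z := by
    rintro _ rfl
    exact h3
  exact h4 _ h2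

/-- The image of the Deligne torus. -/
theorem torus_mem (hH : PtW (bR g d) (fR A V) H) {z : ℂ} (hz : z ≠ 0) :
    ∃ v : Matrix (Σ j, Fin (d j)) (Σ j, Fin (d j)) ℂ,
      fromBlocks (blockDiagonal' fun i => hm (A i) z) 0 0 v ∈ H := by
  obtain ⟨M, hM⟩ := h.stab_weight hH
  have h1 : blockDiagonal' (fun i => hm (A i) (Complex.log z)) =
      ((Complex.log z).re : ℂ) • (1 : Matrix (Σ i, Fin (2 * g i)) (Σ i, Fin (2 * g i)) ℂ) +
        ((Complex.log z).im : ℂ) • blockDiagonal' fun i => hm (A i) Complex.I := by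
    rw [← blockDiagonal'_one, ← blockDiagonal'_smul, ← blockDiagonal'_smul,
      ← blockDiagonal'_add]
    congr 1
    funext i
    exact R917.hm_eq (A i) (Complex.log z)
  refine ⟨NormedSpace.exp (((Complex.log z).re : ℂ) • M), ?_⟩
  rw [← Complex.exp_log hz, ← exp_bd A d, ← exp_fb, Complex.exp_log hz, h1]
  refine R917.exp_mem hH.grp fun δ => ?_
  have h2 : fromBlocks (((Complex.log z).re : ℂ) •
      (1 : Matrix (Σ i, Fin (2 * g i)) (Σ i, Fin (2 * g i)) ℂ) +
        ((Complex.log z).im : ℂ) • blockDiagonal' fun i => hm (A i) Complex.I) 0 0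
        (((Complex.log z).re : ℂ) • M) =
      ((Complex.log z).re : ℂ) • fromBlocks 1 0 0 M +
        ((Complex.log z).im : ℂ) • rho A d Complex.I 0 := by
    unfold rho
    rw [fromBlocks_smul, fromBlocks_smul, fromBlocks_add]
    simp only [zero_smul, smul_zero, add_zero]
  rw [h2]
  exact ((hM δ).smul _).add ((h.stab_J hH δ).smul _)

end Fit

end Fam

end Pool.Agent.T9h38.RM
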