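import Pool.Agent.N192.GP.MultiG

set_option autoImplicit false
set_option linter.unusedSectionVars false
set_option linter.unusedVariables false

/-!
# Commuting representations of orthogonal Lie algebras of different ranks, with rank three
-/

open Module

noncomputable section

namespace Pool.Agent.T9h38.RM

open Pool.Agent.N192.GP

variable {M : Type*} [AddCommGroup M] [Module ℂ M]

/-- The ranks which are considered. -/
def Ok (r : ℕ) : Prop := r = 3 ∨ 6 ≤ r

theorem Ok.three {r : ℕ} (h : Ok r) : 3 ≤ r := by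
  unfold Ok at h
  omega

/-- The smallest dimension of a nontrivial representation. -/
def bet (r : ℕ) : ℕ := if r = 3 then 2 else beta r

theorem dim_three {r : ℕ} {Y : ℕ → ℕ → End ℂ M} [FiniteDimensional ℂ M] (h : SoRel r Y)
    (hr : 3 ≤ r) {c d : ℕ} (hc : c < r) (hd : d < r) (hcd : c ≠ d) (hne : Y c d ≠ 0) :
    2 ≤ finrank ℂ M := by
  by_contra hcon
  apply hne
  obtain ⟨a, ha, hac, had⟩ : ∃ a, a < r ∧ a ≠ c ∧ a ≠ d := by
    by_contra hcon
    push Not at hcon
    have h1 := hcon 0 (by omega)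
    have h2 := hcon 1 (by omega)
    have h3 := hcon 2 (by omega)
    omega
  have hcomm : ∀ f f' : End ℂ M, f * f' = f' * f := by
    intro f f'
    rcases Nat.eq_zero_or_pos (finrank ℂ M) with h0 | h0
    · have : Subsingleton M := finrank_zero_iff.1 h0
      exact LinearMap.ext fun x => Subsingleton.elim _ _
    · have h1 : finrank ℂ M = 1 := by omega
      obtain ⟨v, hv, hv2⟩ := finrank_eq_one_iff'.1 h1
      obtain ⟨a, ha⟩ := hv2 (f v)
      obtain ⟨b, hb⟩ := hv2 (f' v)
      refine LinearMap.ext fun x => ?_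
      obtain ⟨t, rfl⟩ := hv2 x
      rw [Module.End.mul_apply, Module.End.mul_apply, map_smul, map_smul, map_smul, map_smul, ← ha,
        ← hb, map_smul, map_smul, ← ha, ← hb, smul_smul, smul_smul, smul_smul, smul_smul]
      congr 1
      ring
  have h1 := h.br c a d hc ha hd hac.symm had hcd
  rw [hcomm, sub_self] at h1
  exact (smul_eq_zero.1 h1.symm).resolve_left two_ne_zero

theorem dimB {r : ℕ} (hr : Ok r) {Y : ℕ → ℕ → End ℂ M} [FiniteDimensional ℂ M] (h : SoRel r Y)
    {c d : ℕ} (hc : c < r) (hd : d < r) (hcd : c ≠ d) (hne : Y c d ≠ 0) :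
    bet r ≤ finrank ℂ M := by
  unfold bet
  rcases hr with h3 | h6
  · rw [if_pos h3]
    exact dim_three h h3.ge hc hd hcd hne
  · rw [if_neg (by omega)]
    exact h.dim h6 hc hd hcd hne

/-- **Commuting representations without invariants of orthogonal Lie algebras of ranks `r s` have
dimension at least the sum of the `bet (r s)`.** -/
theorem sysG_dim {σ : Type*} [DecidableEq σ] {r : σ → ℕ} (n : ℕ) : ∀ {M : Type _} [AddCommGroup M]
    [Module ℂ M] [FiniteDimensional ℂ M] [Nontrivial M] {S : Finset σ} (_ : ∀ s ∈ S, Ok (r s))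
    {Y : σ → ℕ → ℕ → End ℂ M}, SysG r S Y → S.card = n → ∑ s ∈ S, bet (r s) ≤ finrank ℂ M := by
  induction n with
  | zero =>
    intro M _ _ _ _ S _ Y _ hn
    rw [Finset.card_eq_zero.1 hn, Finset.sum_empty]
    exact Nat.zero_le _
  | succ n ih =>
    intro M _ _ _ _ S h6 Y h hn
    obtain ⟨s, hs, hmin⟩ := S.exists_min_image (fun s => bet (r s)) (Finset.card_pos.1 (by omega))
    have h6s := h6 s hs
    have h3s := h6s.three
    obtain ⟨v, hv⟩ := exists_ne (0 : M)
    obtain ⟨a, b, ha, hb, hab, hne⟩ : ∃ a b, a < r s ∧ b < r s ∧ a ≠ b ∧ Y s a b v ≠ 0 := by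
      by_contra hcon
      push Not at hcon
      exact hv (h.inv s hs v hcon)
    have hne' : Y s a b ≠ 0 := fun h0 => hne (by rw [h0, LinearMap.zero_apply])
    have hR := h.rel s hs
    have hcard : (S.erase s).card = n := by
      rw [Finset.card_erase_of_mem hs, hn, Nat.add_sub_cancel]
    have hsum : ∑ t ∈ S, bet (r t) = ∑ t ∈ S.erase s, bet (r t) + bet (r s) :=
      (Finset.sum_erase_add _ _ hs).symm
    rcases Nat.eq_zero_or_pos n with h0 | hpos
    · have h1 : S.erase s = ∅ := Finset.card_eq_zero.1 (hcard.trans h0)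
      rw [hsum, h1, Finset.sum_empty, zero_add]
      exact dimB h6s hR ha hb hab hne'
    -- an eigenvalue of the first generator of the Cartan subalgebra
    obtain ⟨χ, hχ, hχ0⟩ := hR.occ (m := 1) (by omega) (by omega) ha hb hab hne' 0
    obtain ⟨w, hw, hw0⟩ := (Submodule.ne_bot_iff _).1 hχ
    have hw1 : w ∈ (Hh (Y s) 0).maxGenEigenspace (χ 0) := mem_WS.1 hw 0
    obtain ⟨G, G', -, g2, -, g4⟩ := hR.exists_rot (a := 0) (b := 2) (by omega) (by omega)
      (by omega)
    have hG : G * Hh (Y s) 0 = -(Hh (Y s) 0 * G) := by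
      unfold Hh
      rw [mul_smul_comm, (g4 (2 * 0 + 1) (by omega) (by omega) (by omega)).1, smul_neg,
        smul_mul_assoc]
    have hw2 : G w ∈ (Hh (Y s) 0).maxGenEigenspace (-χ 0) := gen_flip hG hw1
    have hw3 : G w ≠ 0 := by
      intro h1
      have h2 : (G' * G) w = G' (G w) := rfl
      rw [g2, h1, map_zero] at h2
      exact hw0 h2
    have hN : ∀ μ : ℂ, ∀ t ∈ S.erase s, ∀ a b, a < r t → b < r t → a ≠ b →
        ∀ x ∈ (Hh (Y s) 0).maxGenEigenspace μ, Y t a b x ∈ (Hh (Y s) 0).maxGenEigenspace μ := by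
      intro μ t ht a b ha hb hab x hx
      refine gen_map (T' := Hh (Y s) 0) ?_ hx
      unfold Hh
      rw [mul_smul_comm, smul_mul_assoc]
      congr 1
      exact h.comm t (Finset.mem_of_mem_erase ht) s hs (Finset.ne_of_mem_erase ht) a b _ _ ha hb
        hab (by omega) (by omega) (by omega)
    have key : ∀ μ : ℂ, (∃ x ∈ (Hh (Y s) 0).maxGenEigenspace μ, x ≠ 0) →
        ∑ t ∈ S.erase s, bet (r t) ≤ finrank ℂ ((Hh (Y s) 0).maxGenEigenspace μ) := by
      rintro μ ⟨x, hx, hx0⟩
      have : Nontrivial ((Hh (Y s) 0).maxGenEigenspace μ) :=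
        ⟨⟨⟨x, hx⟩, 0, fun h1 => hx0 (congrArg Subtype.val h1)⟩⟩
      exact ih (fun t ht => h6 t (Finset.mem_of_mem_erase ht))
        (h.res (Finset.erase_subset s S) (hN μ)) hcard
    have h1 := key _ ⟨w, hw1, hw0⟩
    have h2 := key _ ⟨G w, hw2, hw3⟩
    have hdis : Disjoint ((Hh (Y s) 0).maxGenEigenspace (χ 0))
        ((Hh (Y s) 0).maxGenEigenspace (-χ 0)) :=
      End.disjoint_genEigenspace _ (fun h3 => hχ0 (self_eq_neg_C h3)) ⊤ ⊤
    have h3 := Submodule.finrank_sup_add_finrank_inf_eq ((Hh (Y s) 0).maxGenEigenspace (χ 0))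
      ((Hh (Y s) 0).maxGenEigenspace (-χ 0))
    rw [hdis.eq_bot, finrank_bot, add_zero] at h3
    have h4 := Submodule.finrank_le ((Hh (Y s) 0).maxGenEigenspace (χ 0) ⊔
      (Hh (Y s) 0).maxGenEigenspace (-χ 0))
    have h5 : bet (r s) ≤ ∑ t ∈ S.erase s, bet (r t) := by
      obtain ⟨t, ht⟩ := Finset.card_pos.1 (hcard ▸ hpos)
      exact (hmin t (Finset.mem_of_mem_erase ht)).trans
        (Finset.single_le_sum (f := fun t => bet (r t)) (fun _ _ => Nat.zero_le _) ht)
    rw [hsum]
    omega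

end Pool.Agent.T9h38.RM
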