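import Pool.Agent.R917.GL.Top

set_option autoImplicit false
set_option maxHeartbeats 1000000
set_option linter.unusedSectionVars false
set_option linter.unusedVariables false

/-!
# Abelian varieties whose homology is a sum of planes of real or quaternionic type
-/

open Module Function TensorProduct Matrix

noncomputable section

namespace Pool.Agent.T9h38.RM

open Pool.Agent.Y102 Pool.Agent.W516.DR Pool.Agent.H204R3.GP Pool.Agent.W516.KC
  Pool.Agent.H204R3.SP Pool.Agent.R917.GL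

variable {g : ℕ}

/-- A decomposition of the complex homology in planes, with `k` isomorphism classes. -/
structure PD (A : AbVar g) (K : Type) [Fintype K] (k : ℕ) where
  P : K → Module.End ℂ (ℂ ⊗[ℚ] A.H1)
  c : K → Fin k
  s : Fin k → K
  cs : ∀ σ, c (s σ) = σ
  mem : ∀ i, P i ∈ cx A.EA
  id : ∀ i, P i * P i = P i
  sum : ∑ i, P i = 1
  tr : ∀ i, LinearMap.trace ℂ (ℂ ⊗[ℚ] A.H1) (P i) = 2
  tz : ∀ i, ∀ X ∈ A.NA, LinearMap.trace ℂ (ℂ ⊗[ℚ] A.H1) (X.baseChange ℂ * P i) = 0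
  sc : ∀ i, ∀ T ∈ A.EA, ∃ z : ℂ, P i * T.baseChange ℂ * P i = z • P i
  iso : ∀ i j, c i = c j ↔ ∃ T ∈ A.EA, P j * T.baseChange ℂ * P i ≠ 0

/-- The Lie algebra as a product of Lie algebras of matrices of size two. -/
structure PX (A : AbVar g) (k : ℕ) where
  b : Fin k → (Fin 2 → ℂ) →ₗ[ℂ] (ℂ ⊗[ℚ] A.H1)
  p : Fin k → (ℂ ⊗[ℚ] A.H1) →ₗ[ℂ] (Fin 2 → ℂ)
  pb : ∀ σ v, p σ (b σ v) = v
  xi : Module.End ℂ (ℂ ⊗[ℚ] A.H1) →ₗ[ℂ] (Fin k → M2)
  ap : ∀ X ∈ cx A.NA, ∀ σ v, X (b σ v) = b σ (xi X σ *ᵥ v)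
  pa : ∀ X ∈ cx A.NA, ∀ σ w, p σ (X w) = xi X σ *ᵥ p σ w
  tz : ∀ X ∈ cx A.NA, ∀ σ, tz (xi X σ)
  br : ∀ X ∈ cx A.NA, ∀ Y ∈ cx A.NA, ∀ σ, xi (X * Y - Y * X) σ = lb (xi X σ) (xi Y σ)
  inj : ∀ X ∈ cx A.NA, (∀ σ, xi X σ = 0) → X = 0
  sur : ∀ σ x, R917.GL.tz x → ∃ X ∈ cx A.NA, xi X σ = x ∧ ∀ τ, τ ≠ σ → xi X τ = 0
  ho : ∀ σ τ, σ ≠ τ → ∀ P : M2, (∀ X ∈ cx A.NA, P * xi X σ = xi X τ * P) → P = 0
  one : ∀ σ, xi 1 σ = 1
  mul : ∀ X Y, CC X → CC Y → ∀ σ, xi (X * Y) σ = xi X σ * xi Y σ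
  injC : ∀ X, CC X → (∀ σ, xi X σ = 0) → X = 0

variable {A : AbVar g} {K : Type} [Fintype K] {k : ℕ}

theorem PD.out (D : PD A K k) : Nonempty (PX A k) ∧ A.NA ≤ der A.NA ∧
    ∀ 𝔥, A.Full 𝔥 → A.NA ≤ 𝔥 := by
  classical
  have hbp := fun i => exists_bpF (D.id i) (R917.EC.finrank_of_trace (D.id i) (D.tr i))
  choose b p hpb hbp using hbp
  have hPb : ∀ i v, D.P i (b i v) = b i v := fun i v => by
    rw [← hbp i, LinearMap.comp_apply, hpb]
  have hbp1 : ∀ i w, b i (p i w) = D.P i w := fun i w =>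
    congrArg (fun T : (ℂ ⊗[ℚ] A.H1) →ₗ[ℂ] (ℂ ⊗[ℚ] A.H1) => T w) (hbp i)
  let S : CP A K :=
    { b := b
      p := p
      pb := hpb
      mem := fun i => by
        rw [hbp]
        exact D.mem i
      N := Set.univ
      sc := by
        intro i _ T hT
        obtain ⟨z, hz⟩ := D.sc i T hT
        refine ⟨z, fun v => ?_⟩
        have h1 := congrArg (fun Z : R917.GL.EC A => p i (Z (b i v))) hz
        simp only [Module.End.mul_apply, LinearMap.smul_apply, map_smul] at h1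
        rw [hPb, hpb] at h1
        rw [← hbp1, hpb] at h1
        exact h1
      tzN := by
        intro i _ X hX
        apply tz_of_trace
        rw [R917.EC.trace_toMatrix, hbp]
        exact D.tz i X hX
      com := fun i hi => absurd (Set.mem_univ i) hi }
  have hSpr : ∀ i, S.pr i = D.P i := fun i => hbp i
  have hsum : ∑ i, S.pr i = 1 := by
    rw [← D.sum]
    exact Finset.sum_congr rfl fun i _ => hSpr i
  let R : S.Rt (fun _ => (0 : Module.End ℚ A.H1)) :=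
    { eq := fun i hi => absurd (Set.mem_univ i) hi
      mem := fun i hi => absurd (Set.mem_univ i) hi
      idem := fun i hi => absurd (Set.mem_univ i) hi
      rk := fun i hi => absurd (Set.mem_univ i) hi
      nsc := fun i hi => absurd (Set.mem_univ i) hi
      iso := fun i j hi => absurd (Set.mem_univ i) hi }
  let Cn : Finset K := Finset.univ.image D.s
  have hCn : ∀ i, i ∈ Cn ↔ ∃ σ, D.s σ = i := by
    intro i
    simp only [Cn, Finset.mem_image, Finset.mem_univ, true_and]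
  let C : S.Reps (fun _ => (0 : Module.End ℚ A.H1)) :=
    { Cn := Cn
      Cm := ∅
      n1 := fun i _ => Set.mem_univ i
      n2 := by
        rintro i hi j hj hij hT
        obtain ⟨σ, rfl⟩ := (hCn i).1 hi
        obtain ⟨τ, rfl⟩ := (hCn j).1 hj
        rw [hSpr, hSpr, ← D.iso, D.cs, D.cs] at hT
        exact hij (by rw [hT])
      n3 := by
        intro i _ _
        refine ⟨D.s (D.c i), (hCn _).2 ⟨_, rfl⟩, Or.inl ?_⟩
        rw [hSpr, hSpr, ← D.iso, D.cs]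
      m1 := fun i hi => absurd hi (Finset.notMem_empty i)
      m2 := fun i hi => absurd hi (Finset.notMem_empty i)
      m3 := fun i hi => absurd (Set.mem_univ i) hi }
  have hsC : ∀ σ, D.s σ ∈ C.Cn ∨ D.s σ ∈ C.Cm := fun σ => Or.inl ((hCn _).2 ⟨σ, rfl⟩)
  have hss : ∀ {σ τ}, D.s σ = D.s τ → σ = τ := fun {σ τ} h => by
    rw [← D.cs σ, h, D.cs]
  have hG := CP.gd C (R917.EC.full_NA (A := A))
  have hinj : ∀ X : R917.GL.EC A, CC X → (∀ σ, S.xi X (D.s σ) = 0) → X = 0 := by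
    intro X hX h0
    refine CP.inj C R hsum hX (fun c hc => ?_) fun c hc => absurd hc (Finset.notMem_empty c)
    obtain ⟨σ, rfl⟩ := (hCn c).1 hc
    exact h0 σ
  refine ⟨⟨?_⟩, ?_, ?_⟩
  · exact
      { b := fun σ => S.b (D.s σ)
        p := fun σ => S.p (D.s σ)
        pb := fun σ v => S.pb _ v
        xi := (LinearMap.funLeft ℂ M2 D.s) ∘ₗ S.xi
        ap := fun X hX σ v => S.apply_b (CC_of_cx hX) (D.s σ) v
        pa := fun X hX σ w => S.p_apply (CC_of_cx hX) (D.s σ) w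
        tz := fun X hX σ => S.xi_tz (Set.mem_univ _) hX
        br := fun X hX Y hY σ => S.xi_lb (CC_of_cx hX) (CC_of_cx hY) (D.s σ)
        inj := fun X hX h0 => hinj X (CC_of_cx hX) h0
        sur := by
          intro σ x hx
          obtain ⟨_, ⟨X, hX, rfl⟩, h1, h2⟩ := hG.single (c := ⟨D.s σ, hsC σ⟩) (Set.mem_univ _) hx
          exact ⟨X, hX, h1, fun τ hτ => h2 ⟨D.s τ, hsC τ⟩ fun h => hτ (hss (congrArg Subtype.val h))⟩
        ho := by
          intro σ τ hst P hP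
          refine hG.ho ⟨D.s σ, hsC σ⟩ (Set.mem_univ _) ⟨D.s τ, hsC τ⟩ (Set.mem_univ _)
            (fun h => hst (hss (congrArg Subtype.val h))) P ?_
          rintro _ ⟨X, hX, rfl⟩
          exact hP X hX
        one := by
          intro σ
          refine mat_ext fun v => ?_
          change S.xi 1 (D.s σ) *ᵥ v = _
          rw [S.xi_mulVec, Module.End.one_apply, S.pb, Matrix.one_mulVec]
        mul := fun X Y hX hY σ => S.xi_mul hX hY (D.s σ)
        injC := fun X hX h0 => hinj X hX h0 }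
  · -- perfectness
    intro X hX
    obtain ⟨Z, hZ, d, hd, rfl, hZc⟩ := (R917.EC.full_NA (A := A)).dec hX
    have hZ0 : Z = 0 := by
      apply bc_zero_iff
      have hcen : ∀ Y ∈ cx A.NA, Z.baseChange ℂ * Y = Y * Z.baseChange ℂ := cx_comm fun Y hY => by
        rw [← bc_mul, ← bc_mul, hZc Y hY]
      have hZC := bc_mem hZ
      refine hinj _ (CC_of_cx hZC) fun σ => ?_
      obtain ⟨z, hz⟩ := S.sc_mat R917.EC.full_NA (Set.mem_univ (D.s σ))
        (Q := S.xi (Z.baseChange ℂ) (D.s σ)) (fun Y hY => by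
        rw [← S.xi_mul (CC_of_cx hZC) (CC_of_cx hY), ← S.xi_mul (CC_of_cx hY) (CC_of_cx hZC),
          hcen Y hY])
      exact tz_of_scalar (S.xi_tz (Set.mem_univ _) hZC) hz
    rw [hZ0, zero_add]
    exact hd
  · intro 𝔥 h X hX
    have hrig := fun {X Y : Module.End ℚ A.H1} (hX : X ∈ A.NA) (hY : Y ∈ A.NA) =>
      CP.rig R hsum h hX hY
    obtain ⟨Z, hZ, d, hd, rfl, hZc⟩ := (R917.EC.full_NA (A := A)).dec hX
    have hZ0 : Z = 0 := by
      apply bc_zero_iff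
      have hcen : ∀ Y ∈ cx A.NA, Z.baseChange ℂ * Y = Y * Z.baseChange ℂ := cx_comm fun Y hY => by
        rw [← bc_mul, ← bc_mul, hZc Y hY]
      have hZC := bc_mem hZ
      refine hinj _ (CC_of_cx hZC) fun σ => ?_
      obtain ⟨z, hz⟩ := S.sc_mat R917.EC.full_NA (Set.mem_univ (D.s σ))
        (Q := S.xi (Z.baseChange ℂ) (D.s σ)) (fun Y hY => by
        rw [← S.xi_mul (CC_of_cx hZC) (CC_of_cx hY), ← S.xi_mul (CC_of_cx hY) (CC_of_cx hZC),
          hcen Y hY])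
      exact tz_of_scalar (S.xi_tz (Set.mem_univ _) hZC) hz
    rw [hZ0, zero_add]
    refine (Submodule.span_le.2 ?_ : der A.NA ≤ 𝔥) hd
    rintro _ ⟨X, hX, Y, hY, rfl⟩
    exact hrig hX hY

end Pool.Agent.T9h38.RM
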