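import Pool.Agent.T9h38.RM.PlaneA
import Pool.Agent.T9h38.RM.ColS
import Pool.Agent.T9h38.RM.Fit
import Pool.Agent.N192.GP.Exc

set_option autoImplicit false
set_option maxHeartbeats 1000000
set_option linter.unusedSectionVars false
set_option linter.unusedVariables false

/-!
# The colours of a sum of planes
-/

open Module Function TensorProduct Matrix

noncomputable section

namespace Pool.Agent.T9h38.RM

open Pool.Agent.Y102 Pool.Agent.W516.DR Pool.Agent.H204R3.GP Pool.Agent.W516.KC
open Pool.Agent.R917.GL (M2 tz lb eq_EFH ideal_top)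

/-! ### The Pauli matrices -/

/-- The Pauli matrices. -/
def pm : ℕ → M2
  | 0 => !![0, 1; 1, 0]
  | 1 => !![0, -Complex.I; Complex.I, 0]
  | 2 => !![1, 0; 0, -1]
  | _ => 0

/-- The products of two Pauli matrices. -/
def pz (a b : ℕ) : M2 := pm a * pm b

/-- The identification with endomorphisms. -/
def Phi : M2 ≃ₐ[ℂ] Module.End ℂ (Fin 2 → ℂ) := Matrix.toLinAlgEquiv'

theorem pz01 : pz 0 1 = !![Complex.I, 0; 0, -Complex.I] := by
  ext i j
  fin_cases i <;> fin_cases j <;> simp [pz, pm, Matrix.mul_apply, Fin.sum_univ_two]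

theorem pz12 : pz 1 2 = !![0, Complex.I; Complex.I, 0] := by
  ext i j
  fin_cases i <;> fin_cases j <;> simp [pz, pm, Matrix.mul_apply, Fin.sum_univ_two]

theorem pz02 : pz 0 2 = !![0, -1; 1, 0] := by
  ext i j
  fin_cases i <;> fin_cases j <;> simp [pz, pm, Matrix.mul_apply, Fin.sum_univ_two]

theorem pm_sq {a : ℕ} (ha : a < 3) : pm a * pm a = 1 := by
  interval_cases a <;>
  · ext i j
    fin_cases i <;> fin_cases j <;> simp [pm, Matrix.mul_apply, Fin.sum_univ_two]

theorem pm_anti {a b : ℕ} (ha : a < 3) (hb : b < 3) (hab : a ≠ b) : pm a * pm b = -(pm b * pm a) := by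
  interval_cases a <;> interval_cases b
  all_goals first
    | exact absurd rfl hab
    | (ext i j
       fin_cases i <;> fin_cases j <;> simp [pm, Matrix.mul_apply, Fin.sum_univ_two])

theorem tz_pz {a b : ℕ} (ha : a < 3) (hb : b < 3) (hab : a ≠ b) : tz (pz a b) := by
  interval_cases a <;> interval_cases b
  all_goals first
    | exact absurd rfl hab
    | simp [tz, pz, pm, Matrix.mul_apply, Fin.sum_univ_two]

theorem soRel_pz : Pool.Agent.N192.GP.SoRel 3 (fun a b => Phi (pz a b)) where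
  anti a b ha hb hab := by
    change Phi (pm a * pm b) = -Phi (pm b * pm a)
    rw [pm_anti ha hb hab, map_neg]
  br a b c ha hb hc hab hbc hac := by
    rw [← map_mul, ← map_mul, ← map_sub, ← map_smul]
    congr 1
    unfold pz
    have h1 : pm a * pm b * (pm b * pm c) = pm a * pm c := by
      rw [mul_assoc, ← mul_assoc (pm b), pm_sq hb, one_mul]
    have h2 : pm b * pm c * (pm a * pm b) = -(pm a * pm c) := by
      have e1 : pm c * (pm a * pm b) = pm a * pm b * pm c := by
        rw [← mul_assoc, pm_anti hc ha hac.symm, neg_mul, mul_assoc, pm_anti hc hb hbc.symm,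
          mul_neg, neg_neg, mul_assoc]
      rw [mul_assoc, e1, ← mul_assoc, ← mul_assoc, pm_anti hb ha hab.symm, neg_mul, neg_mul,
        mul_assoc (pm a), pm_sq hb, mul_one]
    rw [h1, h2, sub_neg_eq_add, two_smul]
  comm a b c d ha hb hc hd hab hcd hac had hbc hbd := by omega

theorem tz_span {x : M2} (hx : tz x) : x = (-Complex.I * x 0 0) • pz 0 1 +
    (-Complex.I * (x 0 1 + x 1 0) / 2) • pz 1 2 + (-(x 0 1 - x 1 0) / 2) • pz 0 2 := by
  have hI := Complex.I_mul_I
  unfold tz at hx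
  rw [pz01, pz12, pz02]
  ext i j
  fin_cases i <;> fin_cases j <;> simp [hx]
  · linear_combination (x 0 0) * hI
  · linear_combination ((x 0 1 + x 1 0) / 2) * hI
  · linear_combination ((x 0 1 + x 1 0) / 2) * hI
  · linear_combination (-x 0 0) * hI

theorem mem_sp3 {x : M2} (hx : tz x) :
    Phi x ∈ Pool.Agent.N192.GP.sp 3 (fun a b => Phi (pz a b)) := by
  rw [tz_span hx, map_add, map_add, map_smul, map_smul, map_smul]
  exact Submodule.add_mem _ (Submodule.add_mem _
    (Submodule.smul_mem _ _ (Pool.Agent.N192.GP.mem_sp (by omega) (by omega) (by omega)))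
    (Submodule.smul_mem _ _ (Pool.Agent.N192.GP.mem_sp (by omega) (by omega) (by omega))))
    (Submodule.smul_mem _ _ (Pool.Agent.N192.GP.mem_sp (by omega) (by omega) (by omega)))

theorem sp3_tz {Y : Module.End ℂ (Fin 2 → ℂ)}
    (hY : Y ∈ Pool.Agent.N192.GP.sp 3 (fun a b => Phi (pz a b))) : tz (Phi.symm Y) := by
  unfold Pool.Agent.N192.GP.sp at hY
  induction hY using Submodule.span_induction with
  | mem Y hY =>
    obtain ⟨a, b, ha, hb, hab, rfl⟩ := hY
    rw [AlgEquiv.symm_apply_apply]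
    exact tz_pz ha hb hab
  | zero => rw [map_zero]; simp [tz]
  | add a b _ _ ha hb =>
    rw [map_add]
    unfold tz at ha hb ⊢
    rw [Matrix.add_apply, Matrix.add_apply, ha, hb]
    ring
  | smul c a _ ha =>
    rw [map_smul]
    unfold tz at ha ⊢
    rw [Matrix.smul_apply, Matrix.smul_apply, ha, smul_neg]

theorem simple3 (J : Submodule ℂ (Module.End ℂ (Fin 2 → ℂ)))
    (hJ : J ≤ Pool.Agent.N192.GP.sp 3 (fun a b => Phi (pz a b)))
    (hJ2 : ∀ x ∈ Pool.Agent.N192.GP.sp 3 (fun a b => Phi (pz a b)), ∀ y ∈ J,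
      x * y - y * x ∈ J) : J = ⊥ ∨ J = Pool.Agent.N192.GP.sp 3 (fun a b => Phi (pz a b)) := by
  by_cases h0 : J = ⊥
  · exact Or.inl h0
  right
  refine le_antisymm hJ fun Y hY => ?_
  obtain ⟨Y₀, hY₀, hne⟩ := (Submodule.ne_bot_iff _).1 h0
  let I : Submodule ℂ M2 := J.comap Phi.toLinearMap
  have hI : ∀ v, v ∈ I ↔ Phi v ∈ J := fun v => Iff.rfl
  have h1 : ∀ v ∈ I, tz v := by
    intro v hv
    have h2 := sp3_tz (hJ ((hI v).1 hv))
    rwa [AlgEquiv.symm_apply_apply] at h2
  have h2 : ∀ v ∈ I, ∀ y, tz y → lb y v ∈ I := by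
    intro v hv y hy
    rw [hI]
    unfold lb
    rw [map_sub, map_mul, map_mul]
    exact hJ2 _ (mem_sp3 hy) _ ((hI v).1 hv)
  have h3 : Phi.symm Y₀ ∈ I := by
    rw [hI, AlgEquiv.apply_symm_apply]
    exact hY₀
  have h4 : Phi.symm Y₀ ≠ 0 := fun h => hne (by
    have h5 := congrArg Phi h
    rwa [AlgEquiv.apply_symm_apply, map_zero] at h5)
  have h5 := ideal_top h1 h2 h3 h4 (sp3_tz hY)
  rw [hI, AlgEquiv.apply_symm_apply] at h5
  exact h5

variable {g k : ℕ} {A : AbVar g}

/-- The colours. -/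
def PX.col (D : PX A k) : Col A.NA k 3 where
  m := 2
  q := fun σ => Phi.toLinearMap ∘ₗ (LinearMap.proj σ) ∘ₗ D.xi
  Z := fun _ a b => Phi (pz a b)
  lie := by
    intro s x hx y hy
    change Phi (D.xi (x * y - y * x) s) = Phi (D.xi x s) * Phi (D.xi y s) -
      Phi (D.xi y s) * Phi (D.xi x s)
    rw [D.br x hx y hy, ← map_mul, ← map_mul, ← map_sub]
    rfl
  rel := fun _ => soRel_pz
  mem := by
    intro s x hx
    exact mem_sp3 (D.tz x hx s)
  surj := by
    intro s a b ha hb hab
    obtain ⟨X, hX, h1, h2⟩ := D.sur s (pz a b) (tz_pz ha hb hab)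
    refine ⟨X, hX, ?_, fun t ht => ?_⟩
    · change Phi (D.xi X s) = Phi (pz a b)
      rw [h1]
    · change Phi (D.xi X t) = 0
      rw [h2 t ht, map_zero]
  simple := fun _ => simple3
  ne := by
    intro s h0
    have h1 : Phi (pz 0 1) = Phi 0 := by rw [map_zero]; exact h0
    have h2 := Phi.injective h1
    rw [pz01] at h2
    have h3 := congrFun (congrFun h2 0) 0
    simp at h3
  inj := by
    intro x hx h0
    refine D.inj x hx fun s => ?_
    have h1 : Phi (D.xi x s) = Phi 0 := by rw [map_zero]; exact h0 s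
    exact Phi.injective h1

end Pool.Agent.T9h38.RM
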