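import Pool.Agent.T9h38.RM.PlaneB

set_option autoImplicit false
set_option maxHeartbeats 1000000
set_option linter.unusedSectionVars false
set_option linter.unusedVariables false

/-!
# Separation of sums of planes from each other and from Lie algebras of spin type
-/

open Module Function TensorProduct Matrix

noncomputable section

namespace Pool.Agent.T9h38.RM

open Pool.Agent.Y102 Pool.Agent.W516.DR Pool.Agent.H204R3.GP Pool.Agent.W516.KC
open Pool.Agent.N192.GP (LG gn gn_mem_LG prq pr pr_apply gg cx2 cx2_mem cx2_br cx2_fst cx2_snd cx2_comp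
  mem_of_cx2 Linked NoIdeals IsHomAb ηη ηA nn DRS NN tt eqv hom_of_comm qq_br qq_fst qq_snd
  sep_of_pairs link_or_sep brk SoRel Br)
open Pool.Agent.R917.GL (M2 tz lb eq_EFH Gd mat_ext)

/-! ### Matrices -/

/-- Commuting matrices of trace zero are proportional. -/
theorem prop_of_lb {x y : M2} (hx : tz x) (hy : tz y) (hx0 : x ≠ 0) (h : lb x y = 0) :
    ∃ a : ℂ, y = a • x := by
  unfold tz at hx hy
  have e1 := congrFun (congrFun h 0) 0
  have e2 := congrFun (congrFun h 0) 1
  have e3 := congrFun (congrFun h 1) 0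
  simp only [lb, Matrix.sub_apply, Matrix.mul_apply, Fin.sum_univ_two, Matrix.zero_apply] at e1 e2 e3
  rw [hx, hy] at e2 e3
  have f1 : x 0 1 * y 1 0 = y 0 1 * x 1 0 := by linear_combination e1
  have f2 : x 0 0 * y 0 1 = y 0 0 * x 0 1 := by linear_combination (1 / 2 : ℂ) * e2
  have f3 : x 0 0 * y 1 0 = y 0 0 * x 1 0 := by linear_combination (-1 / 2 : ℂ) * e3
  by_cases h0 : x 0 0 = 0
  · by_cases h1 : x 0 1 = 0
    · have h2 : x 1 0 ≠ 0 := by
        intro h2
        apply hx0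
        ext i j
        fin_cases i <;> fin_cases j
        · exact h0
        · exact h1
        · exact h2
        · change x 1 1 = 0
          rw [hx, h0, neg_zero]
      refine ⟨y 1 0 / x 1 0, ?_⟩
      have g1 : y 0 0 = 0 := by
        rw [h0, zero_mul] at f3
        exact (mul_eq_zero.1 f3.symm).resolve_right h2
      have g2 : y 0 1 = 0 := by
        rw [h1, zero_mul] at f1
        exact (mul_eq_zero.1 f1.symm).resolve_right h2
      ext i j
      fin_cases i <;> fin_cases j <;> simp [h0, h1, g1, g2, hx, hy, h2]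
    · refine ⟨y 0 1 / x 0 1, ?_⟩
      have g1 : y 0 0 = 0 := by
        rw [h0, zero_mul] at f2
        exact (mul_eq_zero.1 f2.symm).resolve_right h1
      ext i j
      fin_cases i <;> fin_cases j <;> simp [h0, g1, hx, hy, h1]
      field_simp
      linear_combination f1
  · refine ⟨y 0 0 / x 0 0, ?_⟩
    ext i j
    fin_cases i <;> fin_cases j <;> simp [hx, hy, h0]
    · field_simp
      linear_combination f2
    · field_simp
      linear_combination f3

/-- There are no elements of `sl(2)` with the relations of an orthogonal Lie algebra of rank five. -/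
theorem no_five {r : ℕ} (hr : 5 ≤ r) {y : ℕ → ℕ → M2} (htz : ∀ a b, a < r → b < r → a ≠ b → tz (y a b))
    (hanti : ∀ a b, a < r → b < r → a ≠ b → y a b = -y b a)
    (hbr : ∀ a b c, a < r → b < r → c < r → a ≠ b → b ≠ c → a ≠ c →
      lb (y a b) (y b c) = (2 : ℂ) • y a c)
    (hcomm : ∀ a b c d, a < r → b < r → c < r → d < r → a ≠ b → c ≠ d → a ≠ c → a ≠ d → b ≠ c →
      b ≠ d → lb (y a b) (y c d) = 0) : y 0 1 = 0 := by
  by_contra h0
  obtain ⟨a, ha⟩ := prop_of_lb (htz 0 1 (by omega) (by omega) (by omega))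
    (htz 3 2 (by omega) (by omega) (by omega)) h0
    (hcomm 0 1 3 2 (by omega) (by omega) (by omega) (by omega) (by omega) (by omega) (by omega)
      (by omega) (by omega) (by omega))
  obtain ⟨b, hb⟩ := prop_of_lb (htz 0 1 (by omega) (by omega) (by omega))
    (htz 2 4 (by omega) (by omega) (by omega)) h0
    (hcomm 0 1 2 4 (by omega) (by omega) (by omega) (by omega) (by omega) (by omega) (by omega)
      (by omega) (by omega) (by omega))
  have hz : ∀ {v w : M2}, (2 : ℂ) • v = w → w = 0 → v = 0 := fun {v w} h1 h2 =>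
    (smul_eq_zero.1 (h1.trans h2)).resolve_left two_ne_zero
  have h34 : y 3 4 = 0 := by
    refine hz (hbr 3 2 4 (by omega) (by omega) (by omega) (by omega) (by omega) (by omega)).symm ?_
    rw [ha, hb]
    unfold lb
    rw [smul_mul_smul_comm, smul_mul_smul_comm, mul_comm, sub_self]
  have h04 : y 0 4 = 0 := by
    refine hz (hbr 0 3 4 (by omega) (by omega) (by omega) (by omega) (by omega) (by omega)).symm ?_
    rw [h34]
    unfold lb
    rw [mul_zero, zero_mul, sub_self]
  refine h0 (hz (hbr 0 4 1 (by omega) (by omega) (by omega) (by omega) (by omega) (by omega)).symm ?_)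
  rw [h04]
  unfold lb
  rw [mul_zero, zero_mul, sub_self]

section Fam

variable {T : Type} [Fintype T] [DecidableEq T] {n : T → ℕ}
  {η : ∀ t, Basis (Fin (n t)) ℂ ((Fin (n t) → ℚ) →ₗ[ℚ] ℂ)}

theorem zero_of_cmpE {W : Type} [AddCommGroup W] [Module ℚ W] [FiniteDimensional ℚ W]
    {Y : Module.End ℂ (ℂ ⊗[ℚ] W)} (h1 : ∀ lam : ℂ →ₗ[ℚ] ℚ, cmpE lam Y = 0) : Y = 0 := by
  have h2 : ∀ w, Y ((1 : ℂ) ⊗ₜ[ℚ] w) = 0 := fun w => eq_zero_of_cmp fun lam =>
    LinearMap.congr_fun (h1 lam) w
  refine LinearMap.ext fun z => ?_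
  induction z with
  | zero => rw [map_zero, map_zero]
  | add z z' hz hz' => rw [map_add, map_add, hz, hz']
  | tmul a w =>
    have h3 : a ⊗ₜ[ℚ] w = a • ((1 : ℂ) ⊗ₜ[ℚ] w) := by rw [smul_tmul', smul_eq_mul, mul_one]
    rw [h3, map_smul, h2, smul_zero, LinearMap.zero_apply]

theorem cmpE_zero {W : Type} [AddCommGroup W] [Module ℚ W] [FiniteDimensional ℚ W]
    (lam : ℂ →ₗ[ℚ] ℚ) : cmpE lam (0 : Module.End ℂ (ℂ ⊗[ℚ] W)) = 0 :=
  LinearMap.ext fun w => by rw [cmpE_apply, LinearMap.zero_apply, map_zero]; rfl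

theorem linkC {s t : T} (h : Linked η s t)
    {Y : Module.End ℂ (ℂ ⊗[ℚ] (Fin (n t) → ℚ))}
    (hY : ((0, Y) : Module.End ℂ (ℂ ⊗[ℚ] (Fin (n s) → ℚ)) × Module.End ℂ (ℂ ⊗[ℚ] (Fin (n t) → ℚ))) ∈
      cx2 ((LG η).map (prq s t))) : Y = 0 := by
  refine zero_of_cmpE fun lam => ?_
  have h2 := cx2_comp hY lam
  simp only at h2
  rw [cmpE_zero] at h2
  exact h.inj h2

theorem linkC' {s t : T} (h : Linked η s t)
    {X : Module.End ℂ (ℂ ⊗[ℚ] (Fin (n s) → ℚ))}
    (hX : ((X, 0) : Module.End ℂ (ℂ ⊗[ℚ] (Fin (n s) → ℚ)) × Module.End ℂ (ℂ ⊗[ℚ] (Fin (n t) → ℚ))) ∈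
      cx2 ((LG η).map (prq s t))) : X = 0 := by
  refine zero_of_cmpE fun lam => ?_
  have h2 := cx2_comp hX lam
  simp only at h2
  rw [cmpE_zero] at h2
  exact h.inj' h2

theorem cx2_swap {s t : T} {x : Module.End ℂ (ℂ ⊗[ℚ] (Fin (n s) → ℚ))}
    {y : Module.End ℂ (ℂ ⊗[ℚ] (Fin (n t) → ℚ))} (h : (x, y) ∈ cx2 ((LG η).map (prq s t))) :
    (y, x) ∈ cx2 ((LG η).map (prq t s)) := by
  have key : ∀ p ∈ cx2 ((LG η).map (prq s t)), (p.2, p.1) ∈ cx2 ((LG η).map (prq t s)) := by
    intro p hp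
    induction hp using Submodule.span_induction with
    | mem p hp =>
      obtain ⟨_, ⟨ℓ, hℓ, rfl⟩, rfl⟩ := hp
      exact cx2_mem (𝔮 := (LG η).map (prq t s)) (p := prq t s ℓ) ⟨ℓ, hℓ, rfl⟩
    | zero => exact Submodule.zero_mem _
    | add a b _ _ ha hb => exact Submodule.add_mem _ ha hb
    | smul c a _ ha => exact Submodule.smul_mem _ c ha
  exact key _ h

end Fam

end Pool.Agent.T9h38.RM
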