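import Pool.Agent.T9h38.RM.PlaneC

set_option autoImplicit false
set_option maxHeartbeats 1000000
set_option linter.unusedSectionVars false
set_option linter.unusedVariables false

/-!
# Separation: the abstract statements
-/

open Module Function TensorProduct Matrix

noncomputable section

namespace Pool.Agent.T9h38.RM

open Pool.Agent.Y102 Pool.Agent.W516.DR Pool.Agent.H204R3.GP Pool.Agent.W516.KC
open Pool.Agent.N192.GP (cx2 cx2_mem cx2_br cx2_fst cx2_snd cx2_comp mem_of_cx2 SoRel Br)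
open Pool.Agent.R917.GL (M2 tz lb eq_EFH Gd mat_ext)

section Two

variable {g g' k k' : ℕ} {A : AbVar g} {A' : AbVar g'} (D : PX A k) (D' : PX A' k')
  {𝔮 : Submodule ℚ (Module.End ℚ A.H1 × Module.End ℚ A'.H1)}

/-- The matrices of a pair. -/
def Xi2 : (Module.End ℂ (ℂ ⊗[ℚ] A.H1) × Module.End ℂ (ℂ ⊗[ℚ] A'.H1)) →ₗ[ℂ]
    (Fin k ⊕ Fin k' → M2) where
  toFun p := Sum.elim (D.xi p.1) (D'.xi p.2)
  map_add' x y := by
    funext c
    rcases c with c | c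
    · change D.xi (x.1 + y.1) c = D.xi x.1 c + D.xi y.1 c
      rw [map_add, Pi.add_apply]
    · change D'.xi (x.2 + y.2) c = D'.xi x.2 c + D'.xi y.2 c
      rw [map_add, Pi.add_apply]
  map_smul' a x := by
    funext c
    rcases c with c | c
    · change D.xi (a • x.1) c = a • D.xi x.1 c
      rw [map_smul, Pi.smul_apply]
    · change D'.xi (a • x.2) c = a • D'.xi x.2 c
      rw [map_smul, Pi.smul_apply]

include D D' in
theorem two_planes (hbr : Br 𝔮) (h1 : 𝔮.map (LinearMap.fst ℚ _ _) = A.NA)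
    (h2 : 𝔮.map (LinearMap.snd ℚ _ _) = A'.NA)
    (ho : ∀ f : (ℂ ⊗[ℚ] A.H1) →ₗ[ℂ] (ℂ ⊗[ℚ] A'.H1),
      (∀ x y, (x, y) ∈ cx2 𝔮 → y.comp f = f.comp x) → f = 0)
    (ho' : ∀ f : (ℂ ⊗[ℚ] A'.H1) →ₗ[ℂ] (ℂ ⊗[ℚ] A.H1),
      (∀ x y, (x, y) ∈ cx2 𝔮 → x.comp f = f.comp y) → f = 0)
    {X : Module.End ℚ A.H1} (hX : X ∈ A.NA) : (X, 0) ∈ 𝔮 := by
  classical
  have c1 : ∀ p ∈ cx2 𝔮, p.1 ∈ cx A.NA := by
    intro p hp
    rw [← h1, ← cx2_fst]
    exact ⟨p, hp, rfl⟩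
  have c2 : ∀ p ∈ cx2 𝔮, p.2 ∈ cx A'.NA := by
    intro p hp
    rw [← h2, ← cx2_snd]
    exact ⟨p, hp, rfl⟩
  have l1 : ∀ x ∈ cx A.NA, ∃ y, (x, y) ∈ cx2 𝔮 := by
    intro x hx
    rw [← h1, ← cx2_fst] at hx
    obtain ⟨⟨x', y⟩, hp, rfl⟩ := hx
    exact ⟨y, hp⟩
  have l2 : ∀ y ∈ cx A'.NA, ∃ x, (x, y) ∈ cx2 𝔮 := by
    intro y hy
    rw [← h2, ← cx2_snd] at hy
    obtain ⟨⟨x, y'⟩, hp, rfl⟩ := hy
    exact ⟨x, hp⟩
  have hG : Gd ((cx2 𝔮).map (Xi2 D D')) Set.univ := by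
    refine ⟨?_, ?_, ?_, ?_, fun d hd => absurd (Set.mem_univ d) hd⟩
    · rintro _ ⟨p, hp, rfl⟩ c -
      rcases c with c | c
      · exact D.tz _ (c1 p hp) c
      · exact D'.tz _ (c2 p hp) c
    · rintro _ ⟨p, hp, rfl⟩ _ ⟨q, hq, rfl⟩
      refine ⟨p * q - q * p, cx2_br hbr p hp q hq, ?_⟩
      funext c
      rcases c with c | c
      · exact D.br _ (c1 p hp) _ (c1 q hq) c
      · exact D'.br _ (c2 p hp) _ (c2 q hq) c
    · rintro (c | c) - x hx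
      · obtain ⟨X, hX, e1, -⟩ := D.sur c x hx
        obtain ⟨Y, hY⟩ := l1 X hX
        exact ⟨_, ⟨_, hY, rfl⟩, e1⟩
      · obtain ⟨Y, hY, e1, -⟩ := D'.sur c x hx
        obtain ⟨X, hX⟩ := l2 Y hY
        exact ⟨_, ⟨_, hX, rfl⟩, e1⟩
    · rintro (c | c) - (e | e) - hce P hP
      · refine D.ho c e (fun h => hce (by rw [h])) P fun X hX => ?_
        obtain ⟨Y, hY⟩ := l1 X hX
        exact hP _ ⟨_, hY, rfl⟩
      · have hP' : ∀ x y, (x, y) ∈ cx2 𝔮 → P * D.xi x c = D'.xi y e * P := fun x y hp =>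
          hP _ ⟨_, hp, rfl⟩
        have h3 := ho (D'.b e ∘ₗ Matrix.toLin' P ∘ₗ D.p c) (fun x y hp => by
          refine LinearMap.ext fun w => ?_
          have e1 := D'.ap y (c2 _ hp) e (P *ᵥ D.p c w)
          have e2 := D.pa x (c1 _ hp) c w
          change y (D'.b e (P *ᵥ D.p c w)) = D'.b e (P *ᵥ D.p c (x w))
          rw [e1, e2, Matrix.mulVec_mulVec, Matrix.mulVec_mulVec, hP' x y hp])
        refine mat_ext fun v => ?_
        have h4 := congrArg (fun f : (ℂ ⊗[ℚ] A.H1) →ₗ[ℂ] (ℂ ⊗[ℚ] A'.H1) =>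
          D'.p e (f (D.b c v))) h3
        change D'.p e (D'.b e (P *ᵥ D.p c (D.b c v))) = D'.p e 0 at h4
        rw [D'.pb, D.pb, map_zero] at h4
        rw [h4, Matrix.zero_mulVec]
      · have hP' : ∀ x y, (x, y) ∈ cx2 𝔮 → P * D'.xi y c = D.xi x e * P := fun x y hp =>
          hP _ ⟨_, hp, rfl⟩
        have h3 := ho' (D.b e ∘ₗ Matrix.toLin' P ∘ₗ D'.p c) (fun x y hp => by
          refine LinearMap.ext fun w => ?_
          have e1 := D.ap x (c1 _ hp) e (P *ᵥ D'.p c w)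
          have e2 := D'.pa y (c2 _ hp) c w
          change x (D.b e (P *ᵥ D'.p c w)) = D.b e (P *ᵥ D'.p c (y w))
          rw [e1, e2, Matrix.mulVec_mulVec, Matrix.mulVec_mulVec, hP' x y hp])
        refine mat_ext fun v => ?_
        have h4 := congrArg (fun f : (ℂ ⊗[ℚ] A'.H1) →ₗ[ℂ] (ℂ ⊗[ℚ] A.H1) =>
          D.p e (f (D'.b c v))) h3
        change D.p e (D.b e (P *ᵥ D'.p c (D'.b c v))) = D.p e 0 at h4
        rw [D.pb, D'.pb, map_zero] at h4
        rw [h4, Matrix.zero_mulVec]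
      · refine D'.ho c e (fun h => hce (by rw [h])) P fun Y hY => ?_
        obtain ⟨X, hX⟩ := l2 Y hY
        exact hP _ ⟨_, hX, rfl⟩
  have key : ∀ c : Fin k, ∃ Z ∈ cx A.NA, (Z, (0 : Module.End ℂ (ℂ ⊗[ℚ] A'.H1))) ∈ cx2 𝔮 ∧
      D.xi Z c = D.xi (X.baseChange ℂ) c ∧ ∀ e, e ≠ c → D.xi Z e = 0 := by
    intro c
    obtain ⟨_, ⟨⟨Z, Y⟩, hp, rfl⟩, e1, e2⟩ := hG.single (c := Sum.inl c) (Set.mem_univ _)
      (D.tz _ (bc_mem hX) c)
    have hY : Y = 0 := D'.inj Y (c2 _ hp) fun e => e2 (Sum.inr e) (by simp)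
    subst hY
    exact ⟨Z, c1 _ hp, hp, e1, fun e he => e2 (Sum.inl e) fun h => he (Sum.inl_injective h)⟩
  choose Z hZ1 hZ2 hZ3 hZ4 using key
  have hsum : X.baseChange ℂ = ∑ c, Z c := by
    rw [← sub_eq_zero]
    refine D.inj _ (Submodule.sub_mem _ (bc_mem hX) (Submodule.sum_mem _ fun c _ => hZ1 c))
      fun e => ?_
    rw [map_sub, map_sum, Pi.sub_apply, Finset.sum_apply, Finset.sum_eq_single e, hZ3, sub_self]
    · intro c _ hce
      exact hZ4 c e (Ne.symm hce)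
    · intro h
      exact absurd (Finset.mem_univ e) h
  refine mem_of_cx2 ?_
  rw [hsum, LinearMap.baseChange_zero]
  have h3 : ((∑ c, Z c, 0) : Module.End ℂ (ℂ ⊗[ℚ] A.H1) × Module.End ℂ (ℂ ⊗[ℚ] A'.H1)) =
      ∑ c, (Z c, 0) := by
    refine Prod.ext ?_ ?_
    · rw [Prod.fst_sum]
    · rw [Prod.snd_sum, Finset.sum_const_zero]
  rw [h3]
  exact Submodule.sum_mem _ fun c _ => hZ2 c

end Two

section Spin

variable {g k k' r : ℕ} {A : AbVar g} (D : PX A k) {W : Type} [AddCommGroup W] [Module ℚ W]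
  [FiniteDimensional ℚ W] {𝔤 : Submodule ℚ (Module.End ℚ W)} (C : Col 𝔤 k' r)
  {𝔮 : Submodule ℚ (Module.End ℚ A.H1 × Module.End ℚ W)}

include D C in
/-- A sum of planes is not linked with a sum of orthogonal Lie algebras of rank at least five. -/
theorem no_link (hr : 5 ≤ r) (hbr : Br 𝔮) (h1 : 𝔮.map (LinearMap.fst ℚ _ _) = A.NA)
    (h2 : 𝔮.map (LinearMap.snd ℚ _ _) = 𝔤)
    (i1 : ∀ Y : Module.End ℂ (ℂ ⊗[ℚ] W), ((0 : Module.End ℂ (ℂ ⊗[ℚ] A.H1)), Y) ∈ cx2 𝔮 → Y = 0)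
    (i2 : ∀ X : Module.End ℂ (ℂ ⊗[ℚ] A.H1), (X, (0 : Module.End ℂ (ℂ ⊗[ℚ] W))) ∈ cx2 𝔮 → X = 0) :
    𝔤 = ⊥ := by
  classical
  have c1 : ∀ p ∈ cx2 𝔮, p.1 ∈ cx A.NA := by
    intro p hp
    rw [← h1, ← cx2_fst]
    exact ⟨p, hp, rfl⟩
  have c2 : ∀ p ∈ cx2 𝔮, p.2 ∈ cx 𝔤 := by
    intro p hp
    rw [← h2, ← cx2_snd]
    exact ⟨p, hp, rfl⟩
  have l2 : ∀ y ∈ cx 𝔤, ∃ x, (x, y) ∈ cx2 𝔮 := by
    intro y hy
    rw [← h2, ← cx2_snd] at hy
    obtain ⟨⟨x, y'⟩, hp, rfl⟩ := hy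
    exact ⟨x, hp⟩
  have hk : ∀ σ : Fin k', False := by
    intro σ
    have h3 : ∀ a b, ∃ p ∈ cx2 𝔮, a < r → b < r → a ≠ b → C.q σ p.2 = C.Z σ a b ∧
        ∀ τ, τ ≠ σ → C.q τ p.2 = 0 := by
      intro a b
      by_cases hab : a < r ∧ b < r ∧ a ≠ b
      · obtain ⟨y, hy, e1, e2⟩ := C.surj σ a b hab.1 hab.2.1 hab.2.2
        obtain ⟨x, hx⟩ := l2 y hy
        exact ⟨_, hx, fun _ _ _ => ⟨e1, e2⟩⟩
      · exact ⟨0, Submodule.zero_mem _, fun ha hb hne => absurd ⟨ha, hb, hne⟩ hab⟩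
    choose p hp hpq using h3
    have hrel : ∀ w ∈ cx2 𝔮, (∀ τ, C.q τ w.2 = 0) → w.1 = 0 := by
      intro w hw h0
      have e1 : w.2 = 0 := C.inj _ (c2 w hw) h0
      refine i2 _ ?_
      have e2 : (w.1, (0 : Module.End ℂ (ℂ ⊗[ℚ] W))) = w := Prod.ext rfl e1.symm
      rw [e2]
      exact hw
    -- the relations
    have r1 : ∀ a b, a < r → b < r → a ≠ b → (p a b).1 = -(p b a).1 := by
      intro a b ha hb hab
      have h4 := hrel (p a b + p b a) (Submodule.add_mem _ (hp a b) (hp b a)) (fun τ => by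
        rw [Prod.snd_add, map_add]
        by_cases hτ : τ = σ
        · subst hτ
          rw [(hpq a b ha hb hab).1, (hpq b a hb ha hab.symm).1, (C.rel τ).anti a b ha hb hab,
            neg_add_cancel]
        · rw [(hpq a b ha hb hab).2 τ hτ, (hpq b a hb ha hab.symm).2 τ hτ, add_zero])
      exact eq_neg_of_add_eq_zero_left h4
    have r2 : ∀ a b c, a < r → b < r → c < r → a ≠ b → b ≠ c → a ≠ c →
        (p a b).1 * (p b c).1 - (p b c).1 * (p a b).1 = (2 : ℂ) • (p a c).1 := by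
      intro a b c ha hb hc hab hbc hac
      have h4 := hrel (p a b * p b c - p b c * p a b - (2 : ℂ) • p a c) (Submodule.sub_mem _
        (cx2_br hbr _ (hp a b) _ (hp b c)) (Submodule.smul_mem _ _ (hp a c))) (fun τ => by
        change C.q τ ((p a b).2 * (p b c).2 - (p b c).2 * (p a b).2 - (2 : ℂ) • (p a c).2) = 0
        rw [map_sub, C.lie τ _ (c2 _ (hp a b)) _ (c2 _ (hp b c)), map_smul]
        by_cases hτ : τ = σ
        · subst hτ
          rw [(hpq a b ha hb hab).1, (hpq b c hb hc hbc).1, (hpq a c ha hc hac).1,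
            (C.rel τ).br a b c ha hb hc hab hbc hac, sub_self]
        · rw [(hpq a b ha hb hab).2 τ hτ, (hpq b c hb hc hbc).2 τ hτ, (hpq a c ha hc hac).2 τ hτ,
            mul_zero, sub_zero, smul_zero, sub_zero])
      exact sub_eq_zero.1 h4
    have r3 : ∀ a b c d, a < r → b < r → c < r → d < r → a ≠ b → c ≠ d → a ≠ c → a ≠ d → b ≠ c →
        b ≠ d → (p a b).1 * (p c d).1 - (p c d).1 * (p a b).1 = 0 := by
      intro a b c d ha hb hc hd hab hcd hac had hbc hbd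
      refine hrel (p a b * p c d - p c d * p a b) (cx2_br hbr _ (hp a b) _ (hp c d)) (fun τ => ?_)
      change C.q τ ((p a b).2 * (p c d).2 - (p c d).2 * (p a b).2) = 0
      rw [C.lie τ _ (c2 _ (hp a b)) _ (c2 _ (hp c d))]
      by_cases hτ : τ = σ
      · subst hτ
        rw [(hpq a b ha hb hab).1, (hpq c d hc hd hcd).1,
          (C.rel τ).comm a b c d ha hb hc hd hab hcd hac had hbc hbd, sub_self]
      · rw [(hpq a b ha hb hab).2 τ hτ, (hpq c d hc hd hcd).2 τ hτ, mul_zero, sub_zero]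
    have h01 : (p 0 1).1 = 0 := by
      refine D.inj _ (c1 _ (hp 0 1)) fun c => ?_
      refine no_five hr (y := fun a b => D.xi (p a b).1 c)
        (fun a b _ _ _ => D.tz _ (c1 _ (hp a b)) c) (fun a b ha hb hab => ?_)
        (fun a b e ha hb he hab hbe hae => ?_)
        fun a b e f ha hb he hf hab hef hae haf hbe hbf => ?_
      · change D.xi (p a b).1 c = -D.xi (p b a).1 c
        rw [r1 a b ha hb hab, map_neg, Pi.neg_apply]
      · change lb (D.xi (p a b).1 c) (D.xi (p b e).1 c) = (2 : ℂ) • D.xi (p a e).1 c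
        rw [← D.br _ (c1 _ (hp a b)) _ (c1 _ (hp b e)), r2 a b e ha hb he hab hbe hae, map_smul,
          Pi.smul_apply]
      · change lb (D.xi (p a b).1 c) (D.xi (p e f).1 c) = 0
        rw [← D.br _ (c1 _ (hp a b)) _ (c1 _ (hp e f)),
          r3 a b e f ha hb he hf hab hef hae haf hbe hbf, map_zero, Pi.zero_apply]
    have h02 : (p 0 1).2 = 0 := by
      refine i1 _ ?_
      have e2 : ((0 : Module.End ℂ (ℂ ⊗[ℚ] A.H1)), (p 0 1).2) = p 0 1 := Prod.ext h01.symm rfl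
      rw [e2]
      exact hp 0 1
    have h03 := (hpq 0 1 (by omega) (by omega) (by omega)).1
    rw [h02, map_zero] at h03
    exact C.ne σ h03.symm
  rw [eq_bot_iff]
  intro Y hY
  refine mem_of_bc ?_
  have h3 : Y.baseChange ℂ = 0 := C.inj _ (bc_mem hY) fun σ => (hk σ).elim
  rw [h3]
  exact Submodule.zero_mem _

end Spin

end Pool.Agent.T9h38.RM
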