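import Pool.Agent.T9h38.RM.PlaneD

set_option autoImplicit false
set_option maxHeartbeats 1000000
set_option linter.unusedSectionVars false
set_option linter.unusedVariables false

/-!
# Separation in a family of abelian varieties
-/

open Module Function TensorProduct Matrix

noncomputable section

namespace Pool.Agent.T9h38.RM

open Pool.Agent.Y102 Pool.Agent.W516.DR Pool.Agent.H204R3.GP Pool.Agent.W516.KC
open Pool.Agent.N192.GP

variable {I J : Type} [Fintype I] [DecidableEq I] [Fintype J] [DecidableEq J]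
  {g : I → ℕ} {A : ∀ i, AbVar (g i)} {d : J → ℕ} {V : ∀ j, DRS (d j)}

theorem homAb_of {i i' : I}
    {f : (Fin (nn g d (Sum.inl i)) → ℚ) →ₗ[ℚ] (Fin (nn g d (Sum.inl i')) → ℚ)}
    (hNN : ∀ (D : Derivation QBar ℂ ℂ) (lam : ℂ →ₗ[ℚ] ℚ),
        (NN (ηη A V (Sum.inl i')) D lam).comp f = f.comp (NN (ηη A V (Sum.inl i)) D lam)) :
    IsHomAb (A i) (A i') f := by
  obtain ⟨a, ha⟩ := hom_of_comm (ηη A V) (s := Sum.inl i) (t := Sum.inl i') hNN
  have hdR : ∃ a : (Fin (g i') ⊕ Fin (g i')) → (Fin (g i) ⊕ Fin (g i)) → QBar,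
      ∀ p w, (A i').dR p (f w) = ∑ q, algebraMap QBar ℂ (a p q) * (A i).dR q w := by
    refine ⟨fun p q => a (eqv (g i') p) (eqv (g i) q), fun p w => ?_⟩
    have h1 : (A i').dR p (f w) = ηA A i' (eqv (g i') p) (f w) := by
      unfold ηA
      rw [Basis.reindex_apply, Equiv.symm_apply_apply, (A i').coe_basis]
    have h2 : ∀ q, ηA A i (eqv (g i) q) w = (A i).dR q w := by
      intro q
      unfold ηA
      rw [Basis.reindex_apply, Equiv.symm_apply_apply, (A i).coe_basis]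
    have h3 : ηA A i' (eqv (g i') p) (f w) = ∑ q, algebraMap QBar ℂ (a (eqv (g i') p) q) *
        ηA A i q w := ha (eqv (g i') p) w
    refine h1.trans (h3.trans ?_)
    refine (Equiv.sum_comp (eqv (g i)) (fun q => algebraMap QBar ℂ (a (eqv (g i') p) q) *
        ηA A i q w)).symm.trans ?_
    exact Finset.sum_congr rfl fun q _ => by rw [h2]
  exact ⟨(A i).hodge_hom (A i') hdR, hdR⟩

theorem inter_zero {i i' : I}
    (hom : ∀ f : (A i).H1 →ₗ[ℚ] (A i').H1, IsHomAb (A i) (A i') f → f = 0)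
    {f₀ : (ℂ ⊗[ℚ] (Fin (nn g d (Sum.inl i)) → ℚ)) →ₗ[ℂ]
      (ℂ ⊗[ℚ] (Fin (nn g d (Sum.inl i')) → ℚ))}
    (hf₁ : ∀ x y, (x, y) ∈ cx2 ((LG (ηη A V)).map (prq (Sum.inl i) (Sum.inl i'))) →
      y.comp f₀ = f₀.comp x) : f₀ = 0 := by
  let F : (ℂ →ₗ[ℚ] ℚ) → (Fin (nn g d (Sum.inl i)) → ℚ) →ₗ[ℚ]
      (Fin (nn g d (Sum.inl i')) → ℚ) := fun lam =>
    cmp lam ∘ₗ (f₀.restrictScalars ℚ) ∘ₗ
      (TensorProduct.mk ℚ ℂ (Fin (nn g d (Sum.inl i)) → ℚ) 1)
  have hF : ∀ lam w, F lam w = cmp lam (f₀ ((1 : ℂ) ⊗ₜ[ℚ] w)) := fun _ _ => rfl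
  have hcomm : ∀ lam X Y, (X, Y) ∈ (LG (ηη A V)).map (prq (Sum.inl i) (Sum.inl i')) →
      Y.comp (F lam) = (F lam).comp X := by
    intro lam X Y hXY
    refine LinearMap.ext fun w => ?_
    have h1 := LinearMap.congr_fun (hf₁ _ _ (cx2_mem hXY)) ((1 : ℂ) ⊗ₜ[ℚ] w)
    rw [LinearMap.comp_apply, LinearMap.comp_apply] at h1
    simp only [LinearMap.baseChange_tmul] at h1
    have h2 := congrArg (cmp lam) h1
    rw [cmp_bcg] at h2
    exact h2
  have hF0 : ∀ lam, F lam = 0 := by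
    intro lam
    refine hom (F lam) (homAb_of (V := V) fun D lam' => ?_)
    have h1 := hcomm lam _ _ (⟨gn (ηη A V) D lam', gn_mem_LG (ηη A V) D lam', rfl⟩ :
      (pr (Sum.inl i) (gn (ηη A V) D lam'), pr (Sum.inl i') (gn (ηη A V) D lam')) ∈
        (LG (ηη A V)).map (prq (Sum.inl i) (Sum.inl i')))
    refine LinearMap.ext fun w => ?_
    have h2 := LinearMap.congr_fun h1 w
    simp only [pr_apply, LinearMap.comp_apply, LinearMap.sub_apply, LinearMap.smul_apply,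
      Module.End.one_apply, map_sub, map_smul] at h2
    exact sub_left_injective h2
  have h2 : ∀ w, f₀ ((1 : ℂ) ⊗ₜ[ℚ] w) = 0 := fun w => eq_zero_of_cmp fun lam =>
    LinearMap.congr_fun (hF0 lam) w
  refine LinearMap.ext fun z => ?_
  induction z with
  | zero => rw [map_zero, map_zero]
  | add z z' hz hz' => rw [map_add, map_add, hz, hz']
  | tmul a w =>
    have h3 : a ⊗ₜ[ℚ] w = a • ((1 : ℂ) ⊗ₜ[ℚ] w) := by rw [smul_tmul', smul_eq_mul, mul_one]
    rw [h3, map_smul, h2, smul_zero, LinearMap.zero_apply]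

/-- Two sums of planes without homomorphisms are separated. -/
theorem sep_planes {i i' : I} {k k' : ℕ} (D : PX (A i) k) (D' : PX (A i') k')
    (hf : Fine (A i)) (hf' : Fine (A i'))
    (hom : ∀ f : (A i).H1 →ₗ[ℚ] (A i').H1, IsHomAb (A i) (A i') f → f = 0)
    (hom' : ∀ f : (A i').H1 →ₗ[ℚ] (A i).H1, IsHomAb (A i') (A i) f → f = 0) :
    Pool.Agent.N192.GP.Sep (ηη A V) (Sum.inl i) (Sum.inl i') := by
  refine sep_of_pairs (perf_fine hf) fun X hX => ?_
  have h3 : X ∈ ((A i).NA : Submodule ℚ (Module.End ℚ (A i).H1)) := by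
    rw [← gg_fine (V := V) hf]
    exact hX
  obtain ⟨𝔮, h𝔮⟩ : ∃ 𝔮 : Submodule ℚ (Module.End ℚ (A i).H1 × Module.End ℚ (A i').H1),
    𝔮 = (LG (ηη A V)).map (prq (Sum.inl i) (Sum.inl i')) := ⟨_, rfl⟩
  have hbr : Br 𝔮 := by
    rw [h𝔮]
    exact qq_br (η := ηη A V) (s := Sum.inl i) (t := Sum.inl i')
  have h1 : 𝔮.map (LinearMap.fst ℚ (Module.End ℚ (A i).H1) (Module.End ℚ (A i').H1)) =
      (A i).NA := by
    rw [h𝔮]
    exact (qq_fst (η := ηη A V) (s := Sum.inl i) (t := Sum.inl i')).trans (gg_fine (V := V) hf)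
  have h2 : 𝔮.map (LinearMap.snd ℚ (Module.End ℚ (A i).H1) (Module.End ℚ (A i').H1)) =
      (A i').NA := by
    rw [h𝔮]
    exact (qq_snd (η := ηη A V) (s := Sum.inl i) (t := Sum.inl i')).trans (gg_fine (V := V) hf')
  have h4 := two_planes D D' hbr h1 h2
    (fun f hf => by
      rw [h𝔮] at hf
      exact inter_zero (V := V) hom hf)
    (fun f hf => by
      rw [h𝔮] at hf
      exact inter_zero (i := i') (i' := i) (V := V) hom' fun x y hxy =>
        hf y x (cx2_swap (η := ηη A V) (s := Sum.inl i') (t := Sum.inl i) hxy)) h3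
  rw [h𝔮] at h4
  exact h4

/-- A sum of planes and a sum of orthogonal Lie algebras are not linked. -/
theorem not_linked {i i' : I} {k k' r : ℕ} (D : PX (A i) k) (hf : Fine (A i))
    (C : Nonempty (Col (gg (ηη A V) (Sum.inl i')) k' r)) (hr : 5 ≤ r)
    (h : Linked (ηη A V) (Sum.inl i) (Sum.inl i')) : gg (ηη A V) (Sum.inl i') = ⊥ := by
  obtain ⟨𝔮, h𝔮⟩ : ∃ 𝔮 : Submodule ℚ (Module.End ℚ (A i).H1 ×
      Module.End ℚ (Fin (nn g d (Sum.inl i')) → ℚ)),
    𝔮 = (LG (ηη A V)).map (prq (Sum.inl i) (Sum.inl i')) := ⟨_, rfl⟩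
  have hbr : Br 𝔮 := by
    rw [h𝔮]
    exact qq_br (η := ηη A V) (s := Sum.inl i) (t := Sum.inl i')
  have h1 : 𝔮.map (LinearMap.fst ℚ (Module.End ℚ (A i).H1)
      (Module.End ℚ (Fin (nn g d (Sum.inl i')) → ℚ))) = (A i).NA := by
    rw [h𝔮]
    exact (qq_fst (η := ηη A V) (s := Sum.inl i) (t := Sum.inl i')).trans (gg_fine (V := V) hf)
  have h2 : 𝔮.map (LinearMap.snd ℚ (Module.End ℚ (A i).H1)
      (Module.End ℚ (Fin (nn g d (Sum.inl i')) → ℚ))) = gg (ηη A V) (Sum.inl i') := by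
    rw [h𝔮]
    exact qq_snd (η := ηη A V) (s := Sum.inl i) (t := Sum.inl i')
  obtain ⟨C⟩ := C
  exact no_link D C hr hbr h1 h2
    (fun Y hY => by
      rw [h𝔮] at hY
      exact linkC (η := ηη A V) (s := Sum.inl i) (t := Sum.inl i') h hY)
    (fun X hX => by
      rw [h𝔮] at hX
      exact linkC' (η := ηη A V) (s := Sum.inl i) (t := Sum.inl i') h hX)

theorem sep_plane_spin {i i' : I} {k k' r : ℕ} (D : PX (A i) k) (hf : Fine (A i))
    (C : Nonempty (Col (gg (ηη A V) (Sum.inl i')) k' r)) (hr : 5 ≤ r)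
    (hs : NoIdeals (gg (ηη A V) (Sum.inl i))) (ht : NoIdeals (gg (ηη A V) (Sum.inl i'))) :
    Pool.Agent.N192.GP.Sep (ηη A V) (Sum.inl i) (Sum.inl i') := by
  rcases link_or_sep hs ht (perf_fine hf) with h | h
  · have h1 := h.symm.bot (not_linked D hf C hr h)
    unfold Pool.Agent.N192.GP.Sep
    rw [h1]
    exact bot_le
  · exact h

theorem sep_spin_plane {i i' : I} {k k' r : ℕ} (D : PX (A i') k) (hf : Fine (A i'))
    (C : Nonempty (Col (gg (ηη A V) (Sum.inl i)) k' r)) (hr : 5 ≤ r) (hf' : Fine (A i))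
    (hs : NoIdeals (gg (ηη A V) (Sum.inl i))) (ht : NoIdeals (gg (ηη A V) (Sum.inl i'))) :
    Pool.Agent.N192.GP.Sep (ηη A V) (Sum.inl i) (Sum.inl i') := by
  rcases link_or_sep hs ht (perf_fine hf') with h | h
  · have h1 := not_linked D hf C hr h.symm
    unfold Pool.Agent.N192.GP.Sep
    rw [h1]
    exact bot_le
  · exact h

/-- Two Lie algebras of spin type. -/
theorem sep_spins {i i' : I} {k k' r r' : ℕ} (h1 : SpinMatK (A i) k r) (h2 : SpinMatK (A i') k' r')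
    (h6 : 6 ≤ r) (h6' : 6 ≤ r') (hs : NoIdeals (gg (ηη A V) (Sum.inl i)))
    (ht : NoIdeals (gg (ηη A V) (Sum.inl i')))
    (hom : ∀ f : (A i).H1 →ₗ[ℚ] (A i').H1, IsHomAb (A i) (A i') f → f = 0) :
    Pool.Agent.N192.GP.Sep (ηη A V) (Sum.inl i) (Sum.inl i') := by
  have hK : SpinK (gg (ηη A V) (Sum.inl i)) k r := by
    rw [gg_eq h1.mat]
    exact h1.spin
  have hK' : SpinK (gg (ηη A V) (Sum.inl i')) k' r' := by
    rw [gg_eq h2.mat]
    exact h2.spin
  by_cases hr : r = r'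
  · subst hr
    rcases link_or_sep hs ht (hK.spin.perf (by omega)) with h | h
    swap
    · exact h
    by_cases hb : gg (ηη A V) (Sum.inl i) = ⊥
    · unfold Pool.Agent.N192.GP.Sep
      rw [hb]
      exact bot_le
    obtain ⟨f, hf, hf1⟩ := hom_of_linked h h1.mat h2.mat h6 hb
    exact absurd (hom f hf1) hf
  · exact sep_pair hK.spin hK'.spin (by omega) (by omega) hr (h6.trans (le_max_left _ _))

/-- Abelian varieties of spin type. -/
theorem fine_spin {g k r : ℕ} {A : AbVar g} (h : SpinMatK A k r) : Fine A := by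
  refine ⟨fun 𝔥 h𝔥 => ?_, ?_⟩
  · obtain ⟨N, E, c, h3, h5, e1, e2, hc, hl⟩ := h
    exact h𝔥.of_spinMat h3 h5 e1 e2 hc hl
  · exact h.spin.spin.perf h.mat.three

/-- Sums of planes. -/
theorem fine_plane {g k : ℕ} {A : AbVar g} {K : Type} [Fintype K] (D : PD A K k) : Fine A :=
  ⟨D.out.2.2, D.out.2.1⟩

end Pool.Agent.T9h38.RM
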