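import Pool.Agent.T9h38.RM.PlaneE

set_option autoImplicit false
set_option maxHeartbeats 1000000
set_option linter.unusedSectionVars false
set_option linter.unusedVariables false

/-!
# The Lie algebra of an isotypic sum of planes is simple
-/

open Module Function TensorProduct Matrix

noncomputable section

namespace Pool.Agent.T9h38.RM

open Pool.Agent.Y102 Pool.Agent.W516.DR Pool.Agent.H204R3.GP Pool.Agent.W516.KC
open Pool.Agent.N192.GP (NoIdeals Idl)
open Pool.Agent.R917.GL (M2 tz lb eq_EFH ideal_top mat_ext CC CC_of_cx)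

variable {g k : ℕ} {A : AbVar g}

/-- Nonzero matrices of trace zero are not central. -/
theorem exists_lb {y : M2} (hy : tz y) (h0 : y ≠ 0) : ∃ x, tz x ∧ lb x y ≠ 0 := by
  by_contra hcon
  push Not at hcon
  have hE : tz (!![0, 1; 0, 0] : M2) := by simp [tz]
  have hF : tz (!![0, 0; 1, 0] : M2) := by simp [tz]
  have hE0 : (!![0, 1; 0, 0] : M2) ≠ 0 := by
    intro h
    have h1 := congrFun (congrFun h 0) 1
    simp at h1
  have hF0 : (!![0, 0; 1, 0] : M2) ≠ 0 := by
    intro h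
    have h1 := congrFun (congrFun h 1) 0
    simp at h1
  obtain ⟨a, ha⟩ := prop_of_lb hE hy hE0 (hcon _ hE)
  obtain ⟨b, hb⟩ := prop_of_lb hF hy hF0 (hcon _ hF)
  apply h0
  have e1 := congrFun (congrFun (ha.symm.trans hb) 0) 1
  simp at e1
  rw [ha, e1, zero_smul]

theorem CC_add {X Y : R917.GL.EC A} (hX : CC X) (hY : CC Y) : CC (X + Y) := fun Q hQ => by
  rw [add_mul, mul_add, hX Q hQ, hY Q hQ]

theorem CC_sum {ι : Type} (s : Finset ι) {X : ι → R917.GL.EC A} (hX : ∀ i ∈ s, CC (X i)) :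
    CC (∑ i ∈ s, X i) := fun Q hQ => by
  rw [Finset.sum_mul, Finset.mul_sum]
  exact Finset.sum_congr rfl fun i hi => hX i hi Q hQ

theorem noIdeals_px (D : PX A k) (hiso : ∀ e ∈ A.EA, e * e = e → (∀ T ∈ A.EA, e * T = T * e) →
    e = 0 ∨ e = 1) : NoIdeals A.NA := by
  classical
  intro N hN
  have hNle := cx_mono hN.1
  have hid : ∀ X ∈ cx A.NA, ∀ Y ∈ cx N, X * Y - Y * X ∈ cx N := by
    intro X hX Y hY
    induction hX using Submodule.span_induction with
    | mem X hX =>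
      obtain ⟨X, hX, rfl⟩ := hX
      induction hY using Submodule.span_induction with
      | mem Y hY =>
        obtain ⟨Y, hY, rfl⟩ := hY
        rw [← bc_br]
        exact bc_mem (hN.2 X hX Y hY)
      | zero => rw [mul_zero, zero_mul, sub_zero]; exact Submodule.zero_mem _
      | add a b _ _ ha hb =>
        rw [mul_add, add_mul, add_sub_add_comm]
        exact Submodule.add_mem _ ha hb
      | smul c a _ ha =>
        rw [mul_smul_comm, smul_mul_assoc, ← smul_sub]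
        exact Submodule.smul_mem _ c ha
    | zero => rw [mul_zero, zero_mul, sub_zero]; exact Submodule.zero_mem _
    | add a b _ _ ha hb =>
      rw [mul_add, add_mul, add_sub_add_comm]
      exact Submodule.add_mem _ ha hb
    | smul c a _ ha =>
      rw [mul_smul_comm, smul_mul_assoc, ← smul_sub]
      exact Submodule.smul_mem _ c ha
  have hone : ∀ σ, (∃ Y ∈ cx N, D.xi Y σ ≠ 0) → ∀ z, tz z → ∃ Z ∈ cx N, D.xi Z σ = z ∧
      ∀ τ, τ ≠ σ → D.xi Z τ = 0 := by
    rintro σ ⟨Y, hY, hY0⟩ z hz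
    let U : Submodule ℂ (Module.End ℂ (ℂ ⊗[ℚ] A.H1)) :=
      { carrier := {Z | Z ∈ cx N ∧ ∀ τ, τ ≠ σ → D.xi Z τ = 0}
        add_mem' := fun {a b} ha hb => ⟨Submodule.add_mem _ ha.1 hb.1, fun τ hτ => by
          rw [map_add, Pi.add_apply, ha.2 τ hτ, hb.2 τ hτ, add_zero]⟩
        zero_mem' := ⟨Submodule.zero_mem _, fun τ _ => by rw [map_zero]; rfl⟩
        smul_mem' := fun c a ha => ⟨Submodule.smul_mem _ c ha.1, fun τ hτ => by
          rw [map_smul, Pi.smul_apply, ha.2 τ hτ, smul_zero]⟩ }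
    let I : Submodule ℂ M2 := U.map ((LinearMap.proj σ) ∘ₗ D.xi)
    have h1 : ∀ v ∈ I, tz v := by
      rintro _ ⟨Z, hZ, rfl⟩
      exact D.tz Z (hNle hZ.1) σ
    have h2 : ∀ v ∈ I, ∀ y, tz y → lb y v ∈ I := by
      rintro _ ⟨Z, hZ, rfl⟩ y hy
      obtain ⟨X, hX, e1, e2⟩ := D.sur σ y hy
      refine ⟨X * Z - Z * X, ⟨hid X hX Z hZ.1, fun τ hτ => ?_⟩, ?_⟩
      · rw [D.br X hX Z (hNle hZ.1), e2 τ hτ]
        unfold lb
        rw [zero_mul, mul_zero, sub_zero]
      · change D.xi (X * Z - Z * X) σ = lb y (D.xi Z σ)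
        rw [D.br X hX Z (hNle hZ.1), e1]
    obtain ⟨x, hx, hx0⟩ := exists_lb (D.tz Y (hNle hY) σ) hY0
    obtain ⟨X, hX, e1, e2⟩ := D.sur σ x hx
    have h3 : lb x (D.xi Y σ) ∈ I := by
      refine ⟨X * Y - Y * X, ⟨hid X hX Y hY, fun τ hτ => ?_⟩, ?_⟩
      · rw [D.br X hX Y (hNle hY), e2 τ hτ]
        unfold lb
        rw [zero_mul, mul_zero, sub_zero]
      · change D.xi (X * Y - Y * X) σ = lb x (D.xi Y σ)
        rw [D.br X hX Y (hNle hY), e1]
    obtain ⟨Z, hZ, h4⟩ := ideal_top h1 h2 h3 hx0 hz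
    exact ⟨Z, hZ.1, h4, hZ.2⟩
  -- the rational subspace of products
  let 𝔞 : Submodule ℚ (Module.End ℚ A.H1) := Submodule.span ℚ {Z | ∃ X ∈ N, ∃ Y ∈ N, Z = X * Y}
  have hprod : ∀ X ∈ cx N, ∀ Y ∈ cx N, X * Y ∈ cx 𝔞 := by
    intro X hX Y hY
    induction hX using Submodule.span_induction with
    | mem X hX =>
      obtain ⟨X, hX, rfl⟩ := hX
      induction hY using Submodule.span_induction with
      | mem Y hY =>
        obtain ⟨Y, hY, rfl⟩ := hY
        rw [← bc_mul]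
        exact bc_mem (Submodule.subset_span ⟨X, hX, Y, hY, rfl⟩)
      | zero => rw [mul_zero]; exact Submodule.zero_mem _
      | add a b _ _ ha hb =>
        rw [mul_add]
        exact Submodule.add_mem _ ha hb
      | smul c a _ ha =>
        rw [mul_smul_comm]
        exact Submodule.smul_mem _ c ha
    | zero => rw [zero_mul]; exact Submodule.zero_mem _
    | add a b _ _ ha hb =>
      rw [add_mul]
      exact Submodule.add_mem _ ha hb
    | smul c a _ ha =>
      rw [smul_mul_assoc]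
      exact Submodule.smul_mem _ c ha
  have hNC : ∀ X ∈ cx N, CC X := fun X hX => CC_of_cx (hNle hX)
  let S : Finset (Fin k) := Finset.univ.filter fun σ => ∃ Y ∈ cx N, D.xi Y σ ≠ 0
  have hS : ∀ σ, σ ∈ S ↔ ∃ Y ∈ cx N, D.xi Y σ ≠ 0 := by
    intro σ
    simp only [S, Finset.mem_filter, Finset.mem_univ, true_and]
  have hSn : ∀ σ, σ ∉ S → ∀ Y ∈ cx N, D.xi Y σ = 0 := by
    intro σ hσ Y hY
    by_contra h0
    exact hσ ((hS σ).2 ⟨Y, hY, h0⟩)
  -- the elements of the span of the products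
  have haC : ∀ z ∈ cx 𝔞, CC z ∧ ∀ σ, σ ∉ S → D.xi z σ = 0 := by
    intro z hz
    induction hz using Submodule.span_induction with
    | mem z hz =>
      obtain ⟨P, hP, rfl⟩ := hz
      induction hP using Submodule.span_induction with
      | mem P hP =>
        obtain ⟨X, hX, Y, hY, rfl⟩ := hP
        rw [bc_mul]
        refine ⟨(hNC _ (bc_mem hX)).mul (hNC _ (bc_mem hY)), fun σ hσ => ?_⟩
        rw [D.mul _ _ (hNC _ (bc_mem hX)) (hNC _ (bc_mem hY)), hSn σ hσ _ (bc_mem hX), zero_mul]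
      | zero =>
        rw [LinearMap.baseChange_zero]
        exact ⟨fun Q _ => by rw [zero_mul, mul_zero], fun σ _ => by rw [map_zero]; rfl⟩
      | add a b _ _ ha hb =>
        rw [LinearMap.baseChange_add]
        refine ⟨fun Q hQ => ?_, fun σ hσ => ?_⟩
        · rw [add_mul, mul_add, ha.1 Q hQ, hb.1 Q hQ]
        · rw [map_add, Pi.add_apply, ha.2 σ hσ, hb.2 σ hσ, add_zero]
      | smul c a _ ha =>
        have h1 : (c • a).baseChange ℂ = (c : ℂ) • (a.baseChange ℂ) := by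
          rw [LinearMap.baseChange_smul]
          exact (Rat.cast_smul_eq_qsmul ℂ c _).symm
        rw [h1]
        refine ⟨fun Q hQ => ?_, fun σ hσ => ?_⟩
        · rw [smul_mul_assoc, mul_smul_comm, ha.1 Q hQ]
        · rw [map_smul, Pi.smul_apply, ha.2 σ hσ, smul_zero]
    | zero => exact ⟨fun Q _ => by rw [zero_mul, mul_zero], fun σ _ => by rw [map_zero]; rfl⟩
    | add a b _ _ ha hb =>
      refine ⟨fun Q hQ => ?_, fun σ hσ => ?_⟩
      · rw [add_mul, mul_add, ha.1 Q hQ, hb.1 Q hQ]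
      · rw [map_add, Pi.add_apply, ha.2 σ hσ, hb.2 σ hσ, add_zero]
    | smul c a _ ha =>
      refine ⟨fun Q hQ => ?_, fun σ hσ => ?_⟩
      · rw [smul_mul_assoc, mul_smul_comm, ha.1 Q hQ]
      · rw [map_smul, Pi.smul_apply, ha.2 σ hσ, smul_zero]
  -- the idempotent
  have key : ∀ σ, ∃ z ∈ cx 𝔞, σ ∈ S → D.xi z σ = 1 ∧ ∀ τ, τ ≠ σ → D.xi z τ = 0 := by
    intro σ
    by_cases hσ : σ ∈ S
    · obtain ⟨X, hX, e1, e2⟩ := hone σ ((hS σ).1 hσ) !![0, 1; 0, 0] (by simp [tz])
      obtain ⟨Y, hY, f1, f2⟩ := hone σ ((hS σ).1 hσ) !![0, 0; 1, 0] (by simp [tz])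
      refine ⟨X * Y + Y * X, Submodule.add_mem _ (hprod X hX Y hY) (hprod Y hY X hX),
        fun _ => ⟨?_, fun τ hτ => ?_⟩⟩
      · rw [map_add, Pi.add_apply, D.mul _ _ (hNC X hX) (hNC Y hY), D.mul _ _ (hNC Y hY) (hNC X hX),
          e1, f1]
        ext i j
        fin_cases i <;> fin_cases j <;> simp
      · rw [map_add, Pi.add_apply, D.mul _ _ (hNC X hX) (hNC Y hY), D.mul _ _ (hNC Y hY) (hNC X hX),
          e2 τ hτ, zero_mul, mul_zero, add_zero]
    · exact ⟨0, Submodule.zero_mem _, fun h => absurd h hσ⟩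
  choose zz hz1 hz2 using key
  obtain ⟨E, hE⟩ : ∃ E, E = ∑ σ ∈ S, zz σ := ⟨_, rfl⟩
  have hEm : E ∈ cx 𝔞 := by
    rw [hE]
    exact Submodule.sum_mem _ fun σ _ => hz1 σ
  have hE1 : ∀ σ ∈ S, D.xi E σ = 1 := by
    intro σ hσ
    rw [hE, map_sum, Finset.sum_apply, Finset.sum_eq_single σ]
    · exact (hz2 σ hσ).1
    · intro τ hτ hne
      exact (hz2 τ hτ).2 σ (Ne.symm hne)
    · intro h
      exact absurd hσ h
  have hE0 : ∀ σ, σ ∉ S → D.xi E σ = 0 := (haC E hEm).2
  have hEC : CC E := (haC E hEm).1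
  have hEz : ∀ z ∈ cx 𝔞, E * z = z ∧ z * E = z := by
    intro z hz
    obtain ⟨hzC, hz0⟩ := haC z hz
    constructor
    · rw [← sub_eq_zero]
      refine D.injC _ ((hEC.mul hzC).sub hzC) fun σ => ?_
      rw [map_sub, Pi.sub_apply, D.mul _ _ hEC hzC]
      by_cases hσ : σ ∈ S
      · rw [hE1 σ hσ, one_mul, sub_self]
      · rw [hz0 σ hσ, mul_zero, sub_self]
    · rw [← sub_eq_zero]
      refine D.injC _ ((hzC.mul hEC).sub hzC) fun σ => ?_
      rw [map_sub, Pi.sub_apply, D.mul _ _ hzC hEC]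
      by_cases hσ : σ ∈ S
      · rw [hE1 σ hσ, mul_one, sub_self]
      · rw [hz0 σ hσ, zero_mul, sub_self]
  obtain ⟨lam, hlam⟩ := exists_lam
  obtain ⟨e, he⟩ : ∃ e, e = cmpE lam E := ⟨_, rfl⟩
  have hem : e ∈ 𝔞 := by
    rw [he]
    exact cmp_of_ext 𝔞 hEm lam
  have hcmp : ∀ X : Module.End ℚ A.H1, cmpE lam (X.baseChange ℂ) = X := by
    intro X
    refine LinearMap.ext fun w => ?_
    rw [cmpE_apply, LinearMap.baseChange_tmul, cmp_tmul, hlam, one_smul]
  have hez : ∀ z ∈ 𝔞, e * z = z := by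
    intro z hz
    have h1 := congrArg (cmpE lam) (hEz _ (bc_mem hz)).1
    rw [hcmp] at h1
    refine Eq.trans ?_ h1
    refine LinearMap.ext fun w => ?_
    rw [he, Module.End.mul_apply, cmpE_apply, cmpE_apply, Module.End.mul_apply,
      LinearMap.baseChange_tmul]
  have hezC : ∀ z ∈ cx 𝔞, e.baseChange ℂ * z = z := by
    intro z hz
    induction hz using Submodule.span_induction with
    | mem z hz =>
      obtain ⟨P, hP, rfl⟩ := hz
      rw [← bc_mul, hez P hP]
    | zero => rw [mul_zero]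
    | add a b _ _ ha hb => rw [mul_add, ha, hb]
    | smul c a _ ha => rw [mul_smul_comm, ha]
  have heE : e.baseChange ℂ = E := by
    have h1 := hezC E hEm
    rw [(hEz _ (bc_mem hem)).2] at h1
    exact h1
  have hee : e * e = e := hez e hem
  have heA : e ∈ A.EA := by
    intro X hX
    have h1 : X ∈ A.NA := A.LA_le_NA hX
    have h2 : X.baseChange ℂ * E = E * X.baseChange ℂ := by
      have hXC := CC_of_cx (bc_mem h1)
      rw [← sub_eq_zero]
      refine D.injC _ ((hXC.mul hEC).sub (hEC.mul hXC)) fun σ => ?_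
      rw [map_sub, Pi.sub_apply, D.mul _ _ hXC hEC, D.mul _ _ hEC hXC]
      by_cases hσ : σ ∈ S
      · rw [hE1 σ hσ, one_mul, mul_one, sub_self]
      · rw [hE0 σ hσ, mul_zero, zero_mul, sub_self]
    rw [← heE, ← bc_mul, ← bc_mul] at h2
    have h3 := congrArg (cmpE lam) h2
    rwa [hcmp, hcmp] at h3
  have hecen : ∀ T ∈ A.EA, e * T = T * e := by
    intro T hT
    have h2 := hEC _ (bc_mem hT)
    rw [← heE, ← bc_mul, ← bc_mul] at h2
    have h3 := congrArg (cmpE lam) h2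
    rwa [hcmp, hcmp] at h3
  rcases hiso e heA hee hecen with h0 | h0
  · left
    rw [eq_bot_iff]
    intro Y hY
    have h1 : ∀ σ, σ ∉ S := by
      intro σ hσ
      have h2 := hE1 σ hσ
      rw [← heE, h0, LinearMap.baseChange_zero, map_zero] at h2
      exact zero_ne_one h2
    have h2 : Y.baseChange ℂ = 0 := D.injC _ (hNC _ (bc_mem hY)) fun σ =>
      hSn σ (h1 σ) _ (bc_mem hY)
    have h3 := congrArg (cmpE lam) h2
    rw [hcmp] at h3
    rw [h3]
    refine (Submodule.mem_bot ℚ).2 ?_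
    exact LinearMap.ext fun w => by rw [cmpE_apply, LinearMap.zero_apply, map_zero]; rfl
  · right
    refine le_antisymm hN.1 fun X hX => ?_
    have h1 : ∀ σ, σ ∈ S := by
      intro σ
      by_contra hσ
      have h2 := hE0 σ hσ
      have h3 : (e.baseChange ℂ : Module.End ℂ (ℂ ⊗[ℚ] A.H1)) = 1 := by
        rw [h0]
        exact LinearMap.baseChange_id
      rw [← heE, h3, D.one] at h2
      exact one_ne_zero h2
    choose Z hZ1 hZ2 hZ3 using fun σ => hone σ ((hS σ).1 (h1 σ)) (D.xi (X.baseChange ℂ) σ)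
      (D.tz _ (bc_mem hX) σ)
    refine mem_of_bc ?_
    have h2 : X.baseChange ℂ = ∑ σ, Z σ := by
      rw [← sub_eq_zero]
      refine D.injC _ ((CC_of_cx (bc_mem hX)).sub (CC_sum _ fun σ _ => hNC _ (hZ1 σ))) fun σ => ?_
      rw [map_sub, map_sum, Pi.sub_apply, Finset.sum_apply, Finset.sum_eq_single σ, hZ2, sub_self]
      · intro τ _ hne
        exact hZ3 τ σ (Ne.symm hne)
      · intro h
        exact absurd (Finset.mem_univ σ) h
    rw [h2]
    exact Submodule.sum_mem _ fun σ _ => hZ1 σ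

end Pool.Agent.T9h38.RM
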